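import Pool.Agent.H84R6.Eval

set_option autoImplicit false

/-!
# Configurations of the token construction

A configuration is a stack of frames with a leaf at the bottom.  Every frame carries tokens
(strings) that wait; the leaf carries the active token.
-/

namespace Pool.Agent.W939.Ncr

open Encodable
open Nat.Partrec (Code)
open Pool.Agent.H84R6 (GG primrec_GG GG_mon)

abbrev Str := List Bool

/-- a frame: kind (`0` for a diagonalisation that waits, `1` for an expansion, `2` for the wait
between two expansions), the index, the argument, a stored configuration, the waiting tokens on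
the left and on the right -/
abbrev Frame := ℕ × ℕ × ℕ × ℕ × List Str × List Str

abbrev Frame.kd (F : Frame) : ℕ := F.1
abbrev Frame.ix (F : Frame) : ℕ := F.2.1
abbrev Frame.ar (F : Frame) : ℕ := F.2.2.1
abbrev Frame.cd (F : Frame) : ℕ := F.2.2.2.1
abbrev Frame.dn (F : Frame) : List Str := F.2.2.2.2.1
abbrev Frame.td (F : Frame) : List Str := F.2.2.2.2.2

/-- a configuration: the frames, the level and the token of the leaf -/
abbrev Conf := List Frame × (ℕ × Str)

/-- the string as a list of numbers -/
def nn (σ : Str) : List ℕ := σ.map Bool.toNat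

/-- first element or the empty string -/
def hd (T : List Str) : Str := T.head?.getD []

/-- the tokens -/
def toksL (σ : Str) : List Frame → List Str
  | [] => [σ]
  | F :: L => Frame.dn F ++ toksL σ L ++ Frame.td F

def toks (c : Conf) : List Str := toksL c.2.2 c.1

/-- cutting the middle part of a list -/
def mid (F : Frame) (T : List Str) : List Str :=
  (T.take (T.length - (Frame.td F).length)).drop (Frame.dn F).length

/-- new tokens for a frame -/
def setF (F : Frame) (T : List Str) : Frame :=
  (F.1, F.2.1, F.2.2.1, F.2.2.2.1, T.take (Frame.dn F).length,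
    T.drop (T.length - (Frame.td F).length))

def setL : List Frame → List Str → List Frame × List Str
  | [], T => ([], T)
  | F :: L, T => (setF F T :: (setL L (mid F T)).1, (setL L (mid F T)).2)

/-- put new tokens into a configuration -/
def setC (c : Conf) (T : List Str) : Conf :=
  if T.length = (toks c).length then ((setL c.1 T).1, (c.2.1, hd (setL c.1 T).2))
  else ([], (0, hd T))

def stepLeaf (p : ℕ × Str) : Conf :=
  if p.1 % 2 = 0 then ([(0, p.1 / 2, p.2.length, 0, [p.2 ++ [true]], [])], (p.1 + 1, p.2 ++ [false]))
  else ([(1, p.1 / 2, 0, 0, [], [])], (p.1 + 1, p.2))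

/-- first token at which the computation halts -/
def srch (T : List Str) (e k : ℕ) : Option Str :=
  (T.filter (fun c => (GG (nn c) e k).isSome)).head?

/-- push a frame -/
def psh (F : Frame) (c : Conf) : Conf := (F :: c.1, c.2)

/-- the stored configuration -/
def dec (a : ℕ) : Conf := (decode (α := Conf) a).getD ([], (0, []))

/-- the `e`-th computation -/
def ev (s e m : ℕ) : Option ℕ := Code.evaln s (Denumerable.ofNat Code e) m

/-- the side token -/
def side (F : Frame) (C : Conf) : Str := hd (Frame.dn F ++ toks C)

def stN (F : Frame) (C R : Conf) : Conf :=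
  Option.casesOn (ev (side F C).length (Frame.ix F) (Frame.ar F))
      (psh F R)
      (fun v => if v = 0 then ([], (2 * Frame.ix F + 1, side F C)) else R)

def stE (F : Frame) (R : Conf) : Conf :=
  ([(2, Frame.ix F, Frame.ar F, encode R, [], (toks R).tail)], (2 * Frame.ix F + 2, hd (toks R)))

def stD (F : Frame) (b : Str) : Conf :=
  List.casesOn (Frame.td F)
        (psh (1, Frame.ix F, Frame.ar F + 1, 0, [], [])
          (setC (dec (Frame.cd F)) (Frame.dn F ++ [b])))
        (fun t td => ([(2, Frame.ix F, Frame.ar F, Frame.cd F, Frame.dn F ++ [b], td)],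
          (2 * Frame.ix F + 2, t)))

def stW (F : Frame) (C R : Conf) : Conf :=
  Option.casesOn (srch (toks C) (Frame.ix F) (Frame.ar F)) (psh F R) (fun b => stD F b)

/-- the action of a frame, `C` the configuration below and `R` its next state -/
def stepFr (F : Frame) (C R : Conf) : Conf :=
  if Frame.kd F = 0 then stN F C R else if Frame.kd F = 1 then stE F R else stW F C R

def stepL (p : ℕ × Str) : List Frame → Conf
  | [] => stepLeaf p
  | F :: L => stepFr F (L, p) (stepL p L)

def step (c : Conf) : Conf := stepL c.2 c.1

/-! ### primitive recursiveness -/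

theorem pr_nn : Primrec nn := by
  unfold nn
  exact Primrec.list_map Primrec.id ((Primrec.dom_finite Bool.toNat).comp Primrec.snd)

theorem pr_hd : Primrec hd := by
  unfold hd
  exact Primrec.option_getD.comp Primrec.list_head? (Primrec.const [])

theorem pr_kd : Primrec Frame.kd := Primrec.fst
theorem pr_ix : Primrec Frame.ix := Primrec.fst.comp Primrec.snd
theorem pr_ar : Primrec Frame.ar := Primrec.fst.comp (Primrec.snd.comp Primrec.snd)
theorem pr_cd : Primrec Frame.cd :=
  Primrec.fst.comp (Primrec.snd.comp (Primrec.snd.comp Primrec.snd))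
theorem pr_dn : Primrec Frame.dn :=
  Primrec.fst.comp (Primrec.snd.comp (Primrec.snd.comp (Primrec.snd.comp Primrec.snd)))
theorem pr_td : Primrec Frame.td :=
  Primrec.snd.comp (Primrec.snd.comp (Primrec.snd.comp (Primrec.snd.comp Primrec.snd)))

theorem toksL_eq (σ : Str) (L : List Frame) :
    toksL σ L = L.foldr (fun F T => Frame.dn F ++ T ++ Frame.td F) [σ] := by
  induction L with
  | nil => rfl
  | cons F L ih => rw [toksL, ih]; rfl

theorem pr_toks : Primrec toks := by
  have h : Primrec (fun c : Conf =>
      c.1.foldr (fun F T => Frame.dn F ++ T ++ Frame.td F) [c.2.2]) := by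
    refine Primrec.list_foldr (h := fun (_ : Conf) (q : Frame × List Str) =>
      Frame.dn q.1 ++ q.2 ++ Frame.td q.1) Primrec.fst ?_ ?_
    · exact Primrec.list_cons.comp (Primrec.snd.comp Primrec.snd) (Primrec.const [])
    · refine Primrec.list_append.comp (Primrec.list_append.comp ?_ ?_) ?_
      · exact pr_dn.comp (Primrec.fst.comp Primrec.snd)
      · exact Primrec.snd.comp Primrec.snd
      · exact pr_td.comp (Primrec.fst.comp Primrec.snd)
  refine h.of_eq (fun c => ?_)
  exact (toksL_eq _ _).symm

theorem pr_mid : Primrec₂ mid := by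
  unfold mid
  refine Primrec.list_drop.comp (Primrec.list_length.comp (pr_dn.comp Primrec.fst)) ?_
  refine Primrec.list_take.comp ?_ Primrec.snd
  exact Primrec.nat_sub.comp (Primrec.list_length.comp Primrec.snd)
    (Primrec.list_length.comp (pr_td.comp Primrec.fst))

theorem pr_mk {α : Type*} [Primcodable α] {a b c d : α → ℕ} {u v : α → List Str}
    (ha : Primrec a) (hb : Primrec b) (hc : Primrec c) (hd : Primrec d) (hu : Primrec u)
    (hv : Primrec v) : Primrec (fun x => ((a x, b x, c x, d x, u x, v x) : Frame)) :=
  Primrec.pair ha (Primrec.pair hb (Primrec.pair hc (Primrec.pair hd (Primrec.pair hu hv))))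

theorem pr_setF : Primrec₂ setF := by
  unfold setF
  refine pr_mk (pr_kd.comp Primrec.fst) (pr_ix.comp Primrec.fst) (pr_ar.comp Primrec.fst)
    (pr_cd.comp Primrec.fst) ?_ ?_
  · exact Primrec.list_take.comp (Primrec.list_length.comp (pr_dn.comp Primrec.fst)) Primrec.snd
  · refine Primrec.list_drop.comp ?_ Primrec.snd
    exact Primrec.nat_sub.comp (Primrec.list_length.comp Primrec.snd)
      (Primrec.list_length.comp (pr_td.comp Primrec.fst))

theorem setL_eq (L : List Frame) (T : List Str) (acc : List Frame) :
    L.foldl (fun (z : List Frame × List Str) F => (z.1 ++ [setF F z.2], mid F z.2)) (acc, T) =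
      (acc ++ (setL L T).1, (setL L T).2) := by
  induction L generalizing T acc with
  | nil => simp [setL]
  | cons F L ih =>
    rw [List.foldl_cons, ih]
    simp [setL]

theorem pr_setL : Primrec₂ setL := by
  have h : Primrec₂ (fun (L : List Frame) (T : List Str) =>
      L.foldl (fun (z : List Frame × List Str) F => (z.1 ++ [setF F z.2], mid F z.2)) ([], T)) := by
    refine Primrec.list_foldl (f := fun p : List Frame × List Str => p.1)
      (g := fun p => (([], p.2) : List Frame × List Str))
      (h := fun _ (q : (List Frame × List Str) × Frame) =>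
        (q.1.1 ++ [setF q.2 q.1.2], mid q.2 q.1.2)) Primrec.fst ?_ ?_
    · exact Primrec.pair (Primrec.const []) Primrec.snd
    · refine Primrec.pair (Primrec.list_append.comp
        (Primrec.fst.comp (Primrec.fst.comp Primrec.snd))
        (Primrec.list_cons.comp ?_ (Primrec.const []))) ?_
      · exact pr_setF.comp (Primrec.snd.comp Primrec.snd)
          (Primrec.snd.comp (Primrec.fst.comp Primrec.snd))
      · exact pr_mid.comp (Primrec.snd.comp Primrec.snd)
          (Primrec.snd.comp (Primrec.fst.comp Primrec.snd))
  refine h.of_eq (fun L T => ?_)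
  rw [setL_eq]
  simp

theorem pr_setC : Primrec₂ setC := by
  unfold setC
  refine Primrec.ite ?_ ?_ ?_
  · exact Primrec.eq.comp (Primrec.list_length.comp Primrec.snd)
      (Primrec.list_length.comp (pr_toks.comp Primrec.fst))
  · have h1 : Primrec (fun p : Conf × List Str => setL p.1.1 p.2) :=
      pr_setL.comp (Primrec.fst.comp Primrec.fst) Primrec.snd
    refine Primrec.pair (Primrec.fst.comp h1) (Primrec.pair ?_ ?_)
    · exact Primrec.fst.comp (Primrec.snd.comp Primrec.fst)
    · exact pr_hd.comp (Primrec.snd.comp h1)
  · refine Primrec.pair (Primrec.const []) (Primrec.pair (Primrec.const 0) ?_)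
    exact pr_hd.comp Primrec.snd

theorem pr_stepLeaf : Primrec stepLeaf := by
  unfold stepLeaf
  refine Primrec.ite ?_ ?_ ?_
  · exact Primrec.eq.comp (Primrec.nat_mod.comp Primrec.fst (Primrec.const 2)) (Primrec.const 0)
  · refine Primrec.pair (Primrec.list_cons.comp ?_ (Primrec.const [])) ?_
    · refine pr_mk (Primrec.const 0) (Primrec.nat_div.comp Primrec.fst (Primrec.const 2))
        (Primrec.list_length.comp Primrec.snd) (Primrec.const 0) ?_ (Primrec.const [])
      exact Primrec.list_cons.comp (Primrec.list_append.comp Primrec.snd (Primrec.const [true]))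
        (Primrec.const [])
    · exact Primrec.pair (Primrec.succ.comp Primrec.fst)
        (Primrec.list_append.comp Primrec.snd (Primrec.const [false]))
  · refine Primrec.pair (Primrec.list_cons.comp ?_ (Primrec.const [])) ?_
    · exact pr_mk (Primrec.const 1) (Primrec.nat_div.comp Primrec.fst (Primrec.const 2))
        (Primrec.const 0) (Primrec.const 0) (Primrec.const []) (Primrec.const [])
    · exact Primrec.pair (Primrec.succ.comp Primrec.fst) Primrec.snd

theorem pr_srch : Primrec (fun z : List Str × ℕ × ℕ => srch z.1 z.2.1 z.2.2) := by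
  have h : Primrec (fun z : List Str × ℕ × ℕ =>
      (z.1.filterMap (fun c => (GG (nn c) z.2.1 z.2.2).map (fun _ => c))).head?) := by
    refine Primrec.list_head?.comp (Primrec.listFilterMap Primrec.fst ?_)
    refine Primrec.option_map ?_ (Primrec.snd.comp Primrec.fst)
    exact primrec_GG.comp (Primrec.pair (pr_nn.comp Primrec.snd)
      (Primrec.snd.comp Primrec.fst))
  refine h.of_eq (fun z => ?_)
  unfold srch
  congr 1
  rw [← List.filterMap_eq_filter]
  congr 1
  funext c
  rw [Option.guard]
  cases h1 : GG (nn c) z.2.1 z.2.2 with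
  | none => simp
  | some v => simp

theorem pr_psh : Primrec₂ psh :=
  Primrec.pair (Primrec.list_cons.comp Primrec.fst (Primrec.fst.comp Primrec.snd))
    (Primrec.snd.comp Primrec.snd)

theorem pr_dec : Primrec dec := by
  unfold dec
  exact Primrec.option_getD.comp Primrec.decode (Primrec.const _)

theorem pr_ev : Primrec (fun z : ℕ × ℕ × ℕ => ev z.1 z.2.1 z.2.2) := by
  unfold ev
  exact Code.primrec_evaln.comp (Primrec.pair (Primrec.pair Primrec.fst
    ((Primrec.ofNat Code).comp (Primrec.fst.comp Primrec.snd))) (Primrec.snd.comp Primrec.snd))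

theorem pr_side : Primrec₂ side := by
  unfold side
  exact pr_hd.comp (Primrec.list_append.comp (pr_dn.comp Primrec.fst) (pr_toks.comp Primrec.snd))

section
variable {α : Type*} [Primcodable α] {F : α → Frame} {C R : α → Conf} {b : α → Str}

theorem pr_stN (hF : Primrec F) (hC : Primrec C) (hR : Primrec R) :
    Primrec (fun x => stN (F x) (C x) (R x)) := by
  unfold stN
  have hs : Primrec (fun x => side (F x) (C x)) := pr_side.comp hF hC
  refine Primrec.option_casesOn
    (o := fun x => ev (side (F x) (C x)).length (Frame.ix (F x)) (Frame.ar (F x)))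
    (g := fun x v => if v = 0 then ([], (2 * Frame.ix (F x) + 1, side (F x) (C x))) else R x)
    (pr_ev.comp (Primrec.pair (Primrec.list_length.comp hs)
      (Primrec.pair (pr_ix.comp hF) (pr_ar.comp hF)))) (pr_psh.comp hF hR) ?_
  refine Primrec.ite ?_ ?_ ?_
  · exact Primrec.eq.comp Primrec.snd (Primrec.const 0)
  · refine Primrec.pair (Primrec.const []) (Primrec.pair ?_ (hs.comp Primrec.fst))
    exact Primrec.nat_double_succ.comp (pr_ix.comp (hF.comp Primrec.fst))
  · exact hR.comp Primrec.fst

theorem pr_stE (hF : Primrec F) (hR : Primrec R) :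
    Primrec (fun x => stE (F x) (R x)) := by
  have he : Primrec (fun x => encode (R x)) := Primrec.encode.comp hR
  have ht : Primrec (fun x => (toks (R x)).tail) := Primrec.list_tail.comp (pr_toks.comp hR)
  have h1 : Primrec (fun x => ((2, Frame.ix (F x), Frame.ar (F x), encode (R x), [],
      (toks (R x)).tail) : Frame)) :=
    pr_mk (Primrec.const 2) (pr_ix.comp hF) (pr_ar.comp hF) he (Primrec.const []) ht
  have h2 : Primrec (fun x => ((2 * Frame.ix (F x) + 2, hd (toks (R x))) : ℕ × Str)) := by
    refine Primrec.pair ?_ (pr_hd.comp (pr_toks.comp hR))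
    exact Primrec.nat_add.comp (Primrec.nat_double.comp (pr_ix.comp hF)) (Primrec.const 2)
  unfold stE
  exact Primrec.pair (Primrec.list_cons.comp h1 (Primrec.const [])) h2

theorem pr_stD (hF : Primrec F) (hb : Primrec b) : Primrec (fun x => stD (F x) (b x)) := by
  unfold stD
  have hb' : Primrec (fun x => Frame.dn (F x) ++ [b x]) :=
    Primrec.list_append.comp (pr_dn.comp hF) (Primrec.list_cons.comp hb (Primrec.const []))
  refine Primrec.list_casesOn (f := fun x => Frame.td (F x))
    (g := fun x => psh (1, Frame.ix (F x), Frame.ar (F x) + 1, 0, [], [])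
            (setC (dec (Frame.cd (F x))) (Frame.dn (F x) ++ [b x])))
    (h := fun x (q : Str × List Str) =>
      ([(2, Frame.ix (F x), Frame.ar (F x), Frame.cd (F x), Frame.dn (F x) ++ [b x], q.2)],
        (2 * Frame.ix (F x) + 2, q.1)))
    (pr_td.comp hF) ?_ ?_
  · refine pr_psh.comp ?_ (pr_setC.comp (pr_dec.comp (pr_cd.comp hF)) hb')
    exact pr_mk (Primrec.const 1) (pr_ix.comp hF) (Primrec.succ.comp (pr_ar.comp hF))
      (Primrec.const 0) (Primrec.const []) (Primrec.const [])
  · have hF'' : Primrec (fun z : α × (Str × List Str) => F z.1) := hF.comp Primrec.fst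
    refine Primrec.pair (Primrec.list_cons.comp ?_ (Primrec.const [])) ?_
    · exact pr_mk (Primrec.const 2) (pr_ix.comp hF'') (pr_ar.comp hF'') (pr_cd.comp hF'')
        (hb'.comp Primrec.fst) (Primrec.snd.comp Primrec.snd)
    · refine Primrec.pair ?_ (Primrec.fst.comp Primrec.snd)
      exact Primrec.nat_add.comp (Primrec.nat_double.comp (pr_ix.comp hF'')) (Primrec.const 2)

theorem pr_stW (hF : Primrec F) (hC : Primrec C) (hR : Primrec R) :
    Primrec (fun x => stW (F x) (C x) (R x)) := by
  have h0 : Primrec (fun x => (toks (C x), Frame.ix (F x), Frame.ar (F x))) :=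
    Primrec.pair (pr_toks.comp hC) (Primrec.pair (pr_ix.comp hF) (pr_ar.comp hF))
  have h1 : Primrec (fun x => srch (toks (C x)) (Frame.ix (F x)) (Frame.ar (F x))) :=
    (pr_srch.comp h0 :)
  have h2 : Primrec₂ (fun x b => stD (F x) b) :=
    pr_stD (F := fun p : α × Str => F p.1) (b := fun p => p.2) (hF.comp Primrec.fst) Primrec.snd
  have h3 : Primrec (fun x => psh (F x) (R x)) := pr_psh.comp hF hR
  exact Primrec.option_casesOn h1 h3 h2

theorem pr_stepFr (hF : Primrec F) (hC : Primrec C) (hR : Primrec R) :
    Primrec (fun x => stepFr (F x) (C x) (R x)) := by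
  unfold stepFr
  refine Primrec.ite (Primrec.eq.comp (pr_kd.comp hF) (Primrec.const 0)) (pr_stN hF hC hR)
    (Primrec.ite (Primrec.eq.comp (pr_kd.comp hF) (Primrec.const 1)) (pr_stE hF hR)
      (pr_stW hF hC hR))

end

theorem pr_step : Primrec step := by
  have h : Primrec (fun c : Conf => (@List.rec Frame (fun _ => Conf) (stepLeaf c.2)
      (fun F L R => stepFr F (L, c.2) R) c.1 : Conf)) := by
    refine Primrec.list_rec (f := fun c : Conf => c.1) (g := fun c : Conf => stepLeaf c.2)
      (h := fun (c : Conf) (q : Frame × List Frame × Conf) => stepFr q.1 (q.2.1, c.2) q.2.2)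
      Primrec.fst ?_ ?_
    · exact pr_stepLeaf.comp Primrec.snd
    · refine pr_stepFr (F := fun z : Conf × (Frame × List Frame × Conf) => z.2.1)
        (C := fun z => (z.2.2.1, z.1.2)) (R := fun z => z.2.2.2) (Primrec.fst.comp Primrec.snd)
        (Primrec.pair ?_ ?_) ?_
      · exact Primrec.fst.comp (Primrec.snd.comp Primrec.snd)
      · exact Primrec.snd.comp Primrec.fst
      · exact Primrec.snd.comp (Primrec.snd.comp Primrec.snd)
  refine h.of_eq (fun c => ?_)
  obtain ⟨L, p⟩ := c
  induction L with
  | nil => rfl
  | cons F L ih =>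
    show stepFr F (L, p) _ = stepFr F (L, p) (stepL p L)
    congr 1

end Pool.Agent.W939.Ncr
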