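import Pool.Agent.W939.Ncr.Hyp

set_option autoImplicit false

/-!
# A hyperimmune-free real below an r.e. set is computable
-/

namespace Pool.Agent.W939.Ncr

open Encodable
open Nat.Partrec (Code)
open Pool.Agent.H84R6 (GG primrec_GG GG_mon ph pre o)

/-- the enumeration of the domain of the `c`-th computation -/
def as (c s n : ℕ) : ℕ := if (ev s c n).isSome then 1 else 0

/-- the approximation -/
def ap (c d s i : ℕ) : ℕ := (GG ((List.range s).map (as c s)) d i).getD 0

theorem pr_as (c : ℕ) : Primrec₂ (as c) := by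
  unfold as
  have h1 : Primrec (fun z : ℕ × ℕ => (z.1, c, z.2)) :=
    Primrec.pair Primrec.fst (Primrec.pair (Primrec.const c) Primrec.snd)
  have h2 : Primrec (fun z : ℕ × ℕ => (ev z.1 c z.2).isSome) :=
    Primrec.option_isSome.comp (pr_ev.comp h1 :)
  refine Primrec.ite ?_ (Primrec.const 1) (Primrec.const 0)
  exact Primrec.eq.comp h2 (Primrec.const true)

theorem pr_ap (c d : ℕ) : Primrec₂ (ap c d) := by
  unfold ap
  have h1 : Primrec (fun z : ℕ × ℕ => (List.range z.1).map (as c z.1)) :=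
    Primrec.list_map (Primrec.list_range.comp Primrec.fst)
      ((pr_as c).comp (Primrec.fst.comp Primrec.fst) Primrec.snd)
  have h2 : Primrec (fun z : ℕ × ℕ => ((List.range z.1).map (as c z.1), d, z.2)) :=
    Primrec.pair h1 (Primrec.pair (Primrec.const d) Primrec.snd)
  exact Primrec.option_getD.comp (primrec_GG.comp h2 :) (Primrec.const 0)

theorem ap_lim {c d : ℕ} {A y : ℕ → ℕ} (hA : ∀ n, ∃ s0, ∀ s, s0 ≤ s → as c s n = A n)
    (hy : ∀ n, ph d A n (y n)) (i : ℕ) : ∃ s0, ∀ s, s0 ≤ s → ap c d s i = y i := by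
  obtain ⟨K, hK⟩ := hy i
  obtain ⟨S, hS⟩ := exists_unif K (fun n s0 => ∀ s, s0 ≤ s → as c s n = A n)
    (fun j k k' hk h s hs => h s (hk.trans hs)) (fun n _ => hA n)
  refine ⟨max K S, fun s hs => ?_⟩
  have h1 : pre A K = pre (as c s) K := by
    rw [Pool.Agent.H84R6.pre_eq_iff]
    intro n hn
    exact (hS n hn s (by omega)).symm
  have h2 : pre A K <+: (List.range s).map (as c s) := by
    rw [h1]
    exact Pool.Agent.H84R6.pre_pre (as c s) (show K ≤ s by omega)
  unfold ap
  rw [GG_mon h2 hK]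
  rfl

theorem re_lim {A : ℕ → Prop} (hA : REPred A) : ∃ c, ∀ n, ∃ s0, ∀ s, s0 ≤ s →
    (as c s n = 1 ↔ A n) ∧ (as c s n = 0 ↔ ¬ A n) := by
  have h1 : Partrec (fun n : ℕ => (Part.assert (A n) fun _ => Part.some ()).map (fun _ => 0)) :=
    Partrec.map hA (Computable.const 0).to₂
  obtain ⟨c, hc⟩ := Code.exists_code.1 (Partrec.nat_iff.1 h1)
  refine ⟨encode c, fun n => ?_⟩
  have hev : ∀ s, ev s (encode c) n = Code.evaln s c n := by
    intro s; unfold ev; rw [Denumerable.ofNat_encode]
  by_cases h : A n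
  · have h2 : (0 : ℕ) ∈ c.eval n := by
      rw [hc, Part.mem_map_iff]
      exact ⟨(), by rw [Part.mem_assert_iff]; exact ⟨h, Part.mem_some _⟩, rfl⟩
    obtain ⟨k, hk⟩ := Code.evaln_complete.1 h2
    refine ⟨k, fun s hs => ?_⟩
    have h3 : ev s (encode c) n = some 0 := by
      rw [hev]; exact Code.evaln_mono hs hk
    unfold as
    rw [h3]
    simp [h]
  · refine ⟨0, fun s _ => ?_⟩
    have h3 : ev s (encode c) n = none := by
      rw [hev]
      by_contra h4
      obtain ⟨v, hv⟩ := Option.ne_none_iff_exists'.1 h4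
      have h5 := Code.evaln_sound (Option.mem_def.2 hv)
      rw [hc, Part.mem_map_iff] at h5
      obtain ⟨u, h6, -⟩ := h5
      rw [Part.mem_assert_iff] at h6
      exact h h6.1
    unfold as
    rw [h3]
    simp [h]

/-- least stage at which the approximation is right -/
def RC (c d : ℕ) (s : ℕ) (q : List ℕ × ℕ) : Prop :=
  q.2 ≤ s ∧ ∀ i ∈ List.range q.2, ap c d s i = q.1.getD i 0

theorem pr_RC (c d : ℕ) : PrimrecRel (RC c d) := by
  unfold RC
  have h0 : PrimrecRel (fun (i : ℕ) (w : ℕ × (List ℕ × ℕ)) => ap c d w.1 i = w.2.1.getD i 0) := by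
    refine Primrec.eq.comp ?_ ?_
    · exact (pr_ap c d).comp (Primrec.fst.comp Primrec.snd) Primrec.fst
    · exact (Primrec.list_getD 0).comp (Primrec.fst.comp (Primrec.snd.comp Primrec.snd))
        Primrec.fst
  refine PrimrecPred.and ?_ ?_
  · exact Primrec.nat_le.comp (Primrec.snd.comp Primrec.snd) Primrec.fst
  · exact h0.forall_mem_list.comp
      (Primrec.list_range.comp (Primrec.snd.comp Primrec.snd)) Primrec.id

open Classical in
noncomputable def FF (c d : ℕ) (σ : List ℕ) (n : ℕ) : Option ℕ :=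
  if n ≤ σ.length then ((List.range σ.length).filter (fun s => RC c d s (σ, n))).head? else none

theorem pr_FF (c d : ℕ) : Primrec₂ (FF c d) := by
  classical
  unfold FF
  refine Primrec.ite ?_ ?_ (Primrec.const none)
  · exact Primrec.nat_le.comp Primrec.snd (Primrec.list_length.comp Primrec.fst)
  · refine Primrec.list_head?.comp ?_
    exact ((pr_RC c d).listFilter).comp
      (Primrec.list_range.comp (Primrec.list_length.comp Primrec.fst)) Primrec.id

theorem head_filter {p : ℕ → Prop} [DecidablePred p] {N v : ℕ} :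
    ((List.range N).filter (fun s => p s)).head? = some v ↔ v < N ∧ p v ∧ ∀ s < v, ¬ p s := by
  have h1 : (List.range N).filter (fun s => p s) =
      (List.range N).filterMap (fun s => if p s then some s else none) := by
    rw [← List.filterMap_eq_filter]
    congr 1
    funext s
    simp [Option.guard]
  have h2 := Pool.Agent.H84R6.fst1_iff (fun s => if p s then some s else none) N v
  unfold Pool.Agent.H84R6.fst1 at h2
  rw [h1, h2]
  constructor
  · rintro ⟨k, h3, h4, h5⟩
    by_cases hk : p k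
    · rw [if_pos hk] at h4
      obtain rfl := Option.some.inj h4
      refine ⟨h3, hk, fun s hs hps => ?_⟩
      have := h5 s hs
      rw [if_pos hps] at this
      exact absurd this (by simp)
    · rw [if_neg hk] at h4
      exact absurd h4 (by simp)
  · rintro ⟨h3, h4, h5⟩
    exact ⟨v, h3, by rw [if_pos h4], fun j hj => by rw [if_neg (h5 j hj)]⟩

theorem getD_pre {g : ℕ → ℕ} {k i : ℕ} (h : i < k) : (pre g k).getD i 0 = g i := getD_map h

/-- a hyperimmune-free real with a computable approximation is computable -/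
theorem lim_comp {c d : ℕ} {X : ℕ → Bool}
    (hX : ∀ i, ∃ s0, ∀ s, s0 ≤ s → ap c d s i = (X i).toNat)
    (hif : ∀ f : ℕ → ℕ, RecursiveIn {(o X : ℕ →. ℕ)} (f : ℕ →. ℕ) →
      ∃ g : ℕ → ℕ, Computable g ∧ ∀ n, f n ≤ g n) : Computable X := by
  classical
  have hex : ∀ n, ∃ s, n ≤ s ∧ ∀ i < n, ap c d s i = (X i).toNat := by
    intro n
    obtain ⟨S, hS⟩ := exists_unif n (fun i s0 => ∀ s, s0 ≤ s → ap c d s i = (X i).toNat)
      (fun j k k' hk h s hs => h s (hk.trans hs)) (fun i _ => hX i)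
    exact ⟨max n S, le_max_left _ _, fun i hi => hS i hi _ (le_max_right _ _)⟩
  have hRC : ∀ k n s, n ≤ k → (RC c d s (pre (o X) k, n) ↔
      n ≤ s ∧ ∀ i < n, ap c d s i = (X i).toNat) := by
    intro k n s hn
    unfold RC
    refine and_congr Iff.rfl ?_
    constructor
    · intro h i hi
      have h1 : ap c d s i = (pre (o X) k).getD i 0 := h i (List.mem_range.2 hi)
      rw [getD_pre (show i < k by omega)] at h1
      exact h1
    · intro h i hi
      have hi' : i < n := List.mem_range.1 hi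
      show ap c d s i = (pre (o X) k).getD i 0
      rw [getD_pre (show i < k by omega)]
      exact h i hi'
  have hFF : ∀ k n v, FF c d (pre (o X) k) n = some v ↔ n ≤ k ∧ v < k ∧
      (n ≤ v ∧ ∀ i < n, ap c d v i = (X i).toNat) ∧
      ∀ s < v, ¬ (n ≤ s ∧ ∀ i < n, ap c d s i = (X i).toNat) := by
    intro k n v
    unfold FF
    rw [Pool.Agent.H84R6.length_pre]
    by_cases hn : n ≤ k
    · rw [if_pos hn, head_filter, hRC k n v hn]
      constructor
      · rintro ⟨h1, h2, h3⟩
        exact ⟨hn, h1, h2, fun s hs h4 => h3 s hs ((hRC k n s hn).2 h4)⟩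
      · rintro ⟨-, h1, h2, h3⟩
        exact ⟨h1, h2, fun s hs h4 => h3 s hs ((hRC k n s hn).1 h4)⟩
    · rw [if_neg hn]
      constructor
      · intro h; exact absurd h (by simp)
      · rintro ⟨h, -⟩; exact absurd h hn
  let f : ℕ → ℕ := fun n => Nat.find (hex n)
  have hf1 : ∀ n, n ≤ f n ∧ ∀ i < n, ap c d (f n) i = (X i).toNat := fun n => Nat.find_spec (hex n)
  have hf2 : ∀ n, ∀ s < f n, ¬ (n ≤ s ∧ ∀ i < n, ap c d s i = (X i).toNat) :=
    fun n s hs => Nat.find_min (hex n) hs
  have hfX : RecursiveIn {(o X : ℕ →. ℕ)} (f : ℕ →. ℕ) := by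
    apply Pool.Agent.H84R6.tot_of_stepped (pr_FF c d)
    · intro a k v hv
      obtain ⟨-, -, h1, h2⟩ := (hFF k a v).1 hv
      rcases lt_trichotomy v (f a) with h3 | h3 | h3
      · exact absurd h1 (hf2 a v h3)
      · exact h3
      · exact absurd (hf1 a) (h2 (f a) h3)
    · intro a
      refine ⟨max a (f a + 1), f a, (hFF _ a (f a)).2 ⟨le_max_left _ _, ?_, hf1 a, hf2 a⟩⟩
      exact lt_of_lt_of_le (Nat.lt_succ_self _) (le_max_right _ _)
  obtain ⟨g, hg1, hg2⟩ := hif f hfX
  apply comp_of_toNat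
  -- search for a stage after which the value does not change
  let Q : ℕ → ℕ → Prop := fun s w => w.unpair.1 ≤ s → ap c d s w.unpair.2 =
    ap c d w.unpair.1 w.unpair.2
  have hQ : PrimrecRel Q := by
    have h1 : PrimrecRel (fun (s w : ℕ) => ¬ (w.unpair.1 ≤ s) ∨
        ap c d s w.unpair.2 = ap c d w.unpair.1 w.unpair.2) := by
      have hu1 : Primrec (fun z : ℕ × ℕ => z.2.unpair.1) :=
        Primrec.fst.comp (Primrec.unpair.comp Primrec.snd)
      have hu2 : Primrec (fun z : ℕ × ℕ => z.2.unpair.2) :=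
        Primrec.snd.comp (Primrec.unpair.comp Primrec.snd)
      refine PrimrecPred.or (PrimrecPred.not (Primrec.nat_le.comp hu1 Primrec.fst)) ?_
      exact Primrec.eq.comp ((pr_ap c d).comp Primrec.fst hu2) ((pr_ap c d).comp hu1 hu2)
    refine h1.of_eq (fun a b => ?_)
    show _ ↔ (b.unpair.1 ≤ a → _)
    tauto
  let Q2 : ℕ × ℕ × ℕ → Prop := fun z => z.1 < z.2.1 ∧
    ∀ s ∈ List.range (z.2.2 + 1), Q s (Nat.pair z.2.1 z.1)
  have hQ2 : PrimrecPred Q2 := by
    refine PrimrecPred.and (Primrec.nat_lt.comp Primrec.fst (Primrec.fst.comp Primrec.snd)) ?_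
    exact hQ.forall_mem_list.comp
      (Primrec.list_range.comp (Primrec.succ.comp (Primrec.snd.comp Primrec.snd)))
      (Primrec₂.natPair.comp (Primrec.fst.comp Primrec.snd) Primrec.fst)
  let F2 : ℕ → ℕ → Option ℕ := fun i m => if Q2 (i, m, g m) then some (ap c d m i) else none
  have hF2 : Computable₂ F2 := by
    have h1 : Primrec (fun z : ℕ × ℕ × ℕ => if Q2 z then some (ap c d z.2.1 z.1) else none) := by
      refine Primrec.ite hQ2 (Primrec.option_some.comp ?_) (Primrec.const none)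
      exact (pr_ap c d).comp (Primrec.fst.comp Primrec.snd) Primrec.fst
    have h2 : Computable (fun z : ℕ × ℕ => (z.1, z.2, g z.2)) :=
      Computable.pair Computable.fst (Computable.pair Computable.snd
        (hg1.comp Computable.snd))
    exact (h1.to_comp.comp h2 :)
  have hsound : ∀ i m v, F2 i m = some v → v = (X i).toNat := by
    intro i m v hv
    by_cases h : Q2 (i, m, g m)
    · have h0 : F2 i m = some (ap c d m i) := if_pos h
      rw [h0] at hv
      obtain rfl := Option.some.inj hv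
      obtain ⟨h1, h2⟩ := h
      have h3 := h2 (f m) (List.mem_range.2 (by have := hg2 m; show f m < g m + 1; omega))
      have h4 : (Nat.pair m i).unpair.1 ≤ f m → ap c d (f m) (Nat.pair m i).unpair.2 =
        ap c d (Nat.pair m i).unpair.1 (Nat.pair m i).unpair.2 := h3
      rw [Nat.unpair_pair] at h4
      have h5 := h4 (hf1 m).1
      have h6 : i < m := h1
      have h7 := (hf1 m).2 i h6
      simp only at h5
      rw [← h5, h7]
    · have h0 : F2 i m = none := if_neg h
      rw [h0] at hv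
      exact absurd hv (by simp)
  have hfp : Partrec (fun i => Nat.rfindOpt (F2 i)) := Partrec.rfindOpt hF2
  refine hfp.of_eq_tot (fun i => ?_)
  have hd : (Nat.rfindOpt (F2 i)).Dom := by
    rw [Nat.rfindOpt_dom]
    obtain ⟨s0, hs0⟩ := hX i
    refine ⟨max (i + 1) s0, ap c d (max (i + 1) s0) i, ?_⟩
    refine if_pos ⟨?_, ?_⟩
    · show i < max (i + 1) s0
      omega
    · intro s _
      show (Nat.pair (max (i + 1) s0) i).unpair.1 ≤ s → ap c d s (Nat.pair (max (i + 1) s0) i).unpair.2 =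
        ap c d (Nat.pair (max (i + 1) s0) i).unpair.1 (Nat.pair (max (i + 1) s0) i).unpair.2
      rw [Nat.unpair_pair]
      intro h1
      show ap c d s i = ap c d (max (i + 1) s0) i
      have h1' : max (i + 1) s0 ≤ s := h1
      rw [hs0 s (by omega), hs0 _ (le_max_right _ _)]
  obtain ⟨v, hv⟩ := Part.dom_iff_mem.1 hd
  obtain ⟨j, hj⟩ := Nat.rfindOpt_spec hv
  rw [← hsound i j v hj]
  exact hv

variable {V : ℕ → ℕ → Conf}

/-- the real is not below any r.e. set -/
theorem X_not_re (hV : Tower V) {A : ℕ → Prop} (hA : REPred A) {χ : ℕ → ℕ}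
    (hχ1 : ∀ n, A n → χ n = 1) (hχ0 : ∀ n, ¬ A n → χ n = 0) :
    ¬ RecursiveIn {(χ : ℕ →. ℕ)} (o (XX V) : ℕ →. ℕ) := by
  intro h
  obtain ⟨d, hd⟩ := Pool.Agent.H84R6.rec_tot_iff.1 h
  obtain ⟨c, hc⟩ := re_lim hA
  have h1 : ∀ n, ∃ s0, ∀ s, s0 ≤ s → as c s n = χ n := by
    intro n
    obtain ⟨s0, hs0⟩ := hc n
    refine ⟨s0, fun s hs => ?_⟩
    by_cases hn : A n
    · rw [hχ1 n hn]; exact (hs0 s hs).1.2 hn
    · rw [hχ0 n hn]; exact (hs0 s hs).2.2 hn
  have h2 : ∀ i, ∃ s0, ∀ s, s0 ≤ s → ap c d s i = (XX V i).toNat := ap_lim h1 hd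
  exact X_nc hV (lim_comp h2 (fun f hf => X_hif hV hf))

end Pool.Agent.W939.Ncr
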