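import Pool.Agent.W939.Ncr.Test
import Pool.Agent.W939.Ncr.Lim

set_option autoImplicit false

/-!
# The captured reals and the main theorem
-/

namespace Pool.Agent.W939.Ncr

open Encodable MeasureTheory
open scoped ENNReal
open Nat.Partrec (Code)
open Pool.Agent.H84R6 (GG primrec_GG GG_mon ph pre o)

variable {V : ℕ → ℕ → Conf}

def Tn (σ : List ℕ) (n : ℕ) : List Str :=
  (decode (α := List Str) (σ.getD n 0).unpair.2).getD []

def vl (σ : List ℕ) (k : ℕ) (D : List Str) : List ℕ :=
  D.filterMap (fun q => (σ[encode (q, k + 2 + D.length)]?).map (fun v => v.unpair.1 + 1))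

def CK (n : ℕ) (w : List ℕ × ℕ × Str) : Prop :=
  (vl w.1 w.2.1 (dd (Tn w.1 n))).length = (dd (Tn w.1 n)).length ∧
  (vl w.1 w.2.1 (dd (Tn w.1 n))).sum ≤ 2 ^ (2 + (dd (Tn w.1 n)).length) ∧
  ∃ a ∈ Tn w.1 n, a = w.2.2

theorem pr_Tn : Primrec₂ Tn := by
  unfold Tn
  refine Primrec.option_getD.comp (Primrec.decode.comp ?_) (Primrec.const [])
  exact Primrec.snd.comp (Primrec.unpair.comp (Primrec.list_getD 0))

theorem pr_vl : Primrec (fun z : List ℕ × ℕ × List Str => vl z.1 z.2.1 z.2.2) := by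
  unfold vl
  refine Primrec.listFilterMap (Primrec.snd.comp Primrec.snd) ?_
  have h1 : Primrec (fun z : (List ℕ × ℕ × List Str) × Str =>
      encode (z.2, z.1.2.1 + 2 + z.1.2.2.length)) := by
    refine Primrec.encode.comp (Primrec.pair Primrec.snd ?_)
    refine Primrec.nat_add.comp (Primrec.nat_add.comp ?_ (Primrec.const 2)) ?_
    · exact Primrec.fst.comp (Primrec.snd.comp Primrec.fst)
    · exact Primrec.list_length.comp (Primrec.snd.comp (Primrec.snd.comp Primrec.fst))
  have h2 : Primrec (fun z : (List ℕ × ℕ × List Str) × Str =>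
      z.1.1[encode (z.2, z.1.2.1 + 2 + z.1.2.2.length)]?) :=
    Primrec.list_getElem?.comp (Primrec.fst.comp Primrec.fst) h1
  refine Primrec.option_map h2 ?_
  exact Primrec.succ.comp (Primrec.fst.comp (Primrec.unpair.comp Primrec.snd))

theorem pr_pow2 : Primrec (fun n : ℕ => 2 ^ n) := by
  have h := Primrec.nat_rec₁ (f := fun (_ v : ℕ) => 2 * v) 1
    (Primrec.nat_double.comp Primrec.snd)
  refine h.of_eq (fun n => ?_)
  induction n with
  | zero => rfl
  | succ n ih =>
    show 2 * (Nat.rec 1 (fun _ v => 2 * v) n : ℕ) = 2 ^ (n + 1)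
    rw [ih, pow_succ]; ring

theorem pr_sum : Primrec (fun l : List ℕ => l.sum) := by
  have h : Primrec (fun l : List ℕ => l.foldr (fun a b => a + b) 0) :=
    Primrec.list_foldr (f := fun l : List ℕ => l) (g := fun _ => 0)
      (h := fun (_ : List ℕ) (p : ℕ × ℕ) => p.1 + p.2) Primrec.id (Primrec.const 0)
      (Primrec.nat_add.comp (Primrec.fst.comp Primrec.snd) (Primrec.snd.comp Primrec.snd))
  refine h.of_eq (fun l => ?_)
  induction l with
  | nil => rfl
  | cons a l ih => rw [List.foldr_cons, ih, List.sum_cons]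

theorem pr_CK : PrimrecRel CK := by
  unfold CK
  have hT : Primrec (fun z : ℕ × (List ℕ × ℕ × Str) => Tn z.2.1 z.1) :=
    pr_Tn.comp (Primrec.fst.comp Primrec.snd) Primrec.fst
  have hD : Primrec (fun z : ℕ × (List ℕ × ℕ × Str) => dd (Tn z.2.1 z.1)) := pr_dd.comp hT
  have hw : Primrec (fun z : ℕ × (List ℕ × ℕ × Str) => (z.2.1, z.2.2.1, dd (Tn z.2.1 z.1))) :=
    Primrec.pair (Primrec.fst.comp Primrec.snd)
      (Primrec.pair (Primrec.fst.comp (Primrec.snd.comp Primrec.snd)) hD)
  have hv : Primrec (fun z : ℕ × (List ℕ × ℕ × Str) => vl z.2.1 z.2.2.1 (dd (Tn z.2.1 z.1))) :=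
    (pr_vl.comp hw :)
  refine PrimrecPred.and ?_ (PrimrecPred.and ?_ ?_)
  · exact Primrec.eq.comp (Primrec.list_length.comp hv) (Primrec.list_length.comp hD)
  · exact Primrec.nat_le.comp (pr_sum.comp hv)
      (pr_pow2.comp (Primrec.nat_add.comp (Primrec.const 2) (Primrec.list_length.comp hD)))
  · have h : PrimrecRel (fun (a q : Str) => a = q) := Primrec.eq
    exact h.exists_mem_list.comp hT (Primrec.snd.comp (Primrec.snd.comp Primrec.snd))

def dcd (x : ℕ) : ℕ × Str := (decode (α := ℕ × Str) x).getD (0, [])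

def Fst (σ : List ℕ) (x : ℕ) : Prop := ∃ n ∈ List.range σ.length, CK n (σ, dcd x)

theorem pr_Fst : PrimrecRel Fst := by
  unfold Fst
  have hd : Primrec dcd := by
    unfold dcd
    exact Primrec.option_getD.comp Primrec.decode (Primrec.const _)
  exact pr_CK.exists_mem_list.comp (Primrec.list_range.comp (Primrec.list_length.comp Primrec.fst))
    (Primrec.pair Primrec.fst (hd.comp Primrec.snd))

open Classical in
noncomputable def FT (σ : List ℕ) (x : ℕ) : Option ℕ := if Fst σ x then some 0 else none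

theorem pr_FT : Primrec₂ FT := by
  classical
  unfold FT
  exact Primrec.ite pr_Fst (Primrec.const (some 0)) (Primrec.const none)

/-- if all values are known, the list is the list of values -/
theorem filterMap_full {h : ℕ → ℕ} {K p : ℕ} (D : List Str)
    (hl : (D.filterMap (fun q => ((pre h K)[encode (q, p)]?).map (fun v => v.unpair.1 + 1))).length
      = D.length) :
    D.filterMap (fun q => ((pre h K)[encode (q, p)]?).map (fun v => v.unpair.1 + 1)) =
      D.map (fun q => (h (encode (q, p))).unpair.1 + 1) := by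
  induction D with
  | nil => rfl
  | cons q D ih =>
    rw [List.filterMap_cons] at hl ⊢
    cases hv : ((pre h K)[encode (q, p)]?).map (fun v => v.unpair.1 + 1) with
    | none =>
      rw [hv] at hl
      have h1 : (List.filterMap (fun q => ((pre h K)[encode (q, p)]?).map
        (fun v => v.unpair.1 + 1)) D).length ≤ D.length := List.length_filterMap_le _ _
      simp only [List.length_cons] at hl
      omega
    | some w =>
      rw [hv] at hl
      simp only [List.length_cons] at hl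
      obtain ⟨v, h1, h2⟩ := Option.map_eq_some_iff.1 hv
      have h3 := ((Pool.Agent.Helper760.OracleNF.getElem?_pre h _ K v).1 h1).2
      show w :: _ = _
      rw [ih (by omega), List.map_cons, ← h2, h3]

theorem filterMap_full' {h : ℕ → ℕ} {K p : ℕ} (D : List Str)
    (hK : ∀ q ∈ D, encode (q, p) < K) :
    D.filterMap (fun q => ((pre h K)[encode (q, p)]?).map (fun v => v.unpair.1 + 1)) =
      D.map (fun q => (h (encode (q, p))).unpair.1 + 1) := by
  induction D with
  | nil => rfl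
  | cons q D ih =>
    rw [List.filterMap_cons, ih (fun q' hq' => hK q' (List.mem_cons_of_mem _ hq'))]
    have h1 : (pre h K)[encode (q, p)]? = some (h (encode (q, p))) :=
      (Pool.Agent.Helper760.OracleNF.getElem?_pre h _ K _).2 ⟨hK q (by simp), rfl⟩
    rw [h1]
    rfl

theorem exists_bound (D : List Str) (p : ℕ) : ∃ K, ∀ q ∈ D, encode (q, p) < K := by
  induction D with
  | nil => exact ⟨0, fun q hq => absurd hq (by simp)⟩
  | cons a D ih =>
    obtain ⟨K, hK⟩ := ih
    refine ⟨max K (encode (a, p) + 1), fun q hq => ?_⟩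
    rcases List.mem_cons.1 hq with h | h
    · rw [h]; omega
    · have := hK q h; omega

/-- the oracle that codes the approximations and the strings -/
def hh (a : ℕ → ℕ) (S : ℕ → List Str) (i : ℕ) : ℕ := Nat.pair (a i) (encode (S i))

theorem Tn_pre {a : ℕ → ℕ} {S : ℕ → List Str} {K n : ℕ} (hn : n < K) :
    Tn (pre (hh a S) K) n = S n := by
  unfold Tn
  rw [getD_pre hn]
  unfold hh
  rw [Nat.unpair_pair]
  show (decode (encode (S n))).getD [] = S n
  rw [encodek]
  rfl

theorem FT_iff {a : ℕ → ℕ} {S : ℕ → List Str} (k : ℕ) (q : Str) :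
    (∃ K v, FT (pre (hh a S) K) (encode (k, q)) = some v) ↔ ∃ n, cnd a k (S n) ∧ q ∈ S n := by
  have hd : dcd (encode (k, q)) = (k, q) := by
    unfold dcd
    rw [encodek]
    rfl
  have hmap : ∀ (D : List Str) (p : ℕ),
      (D.map (fun q => ((hh a S) (encode (q, p))).unpair.1 + 1)).sum = sm a D p := by
    intro D p
    unfold sm
    congr 1
    apply List.map_congr_left
    intro q _
    unfold hh
    rw [Nat.unpair_pair]
  constructor
  · rintro ⟨K, v, h⟩
    have h1 : Fst (pre (hh a S) K) (encode (k, q)) := by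
      by_contra hc
      unfold FT at h
      rw [if_neg hc] at h
      exact absurd h (by simp)
    obtain ⟨n, hn, h2⟩ := h1
    rw [List.mem_range, Pool.Agent.H84R6.length_pre] at hn
    rw [hd] at h2
    obtain ⟨h3, h4, q', h5, h6⟩ := h2
    change (vl (pre (hh a S) K) k (dd (Tn (pre (hh a S) K) n))).length =
      (dd (Tn (pre (hh a S) K) n)).length at h3
    change (vl (pre (hh a S) K) k (dd (Tn (pre (hh a S) K) n))).sum ≤
      2 ^ (2 + (dd (Tn (pre (hh a S) K) n)).length) at h4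
    change q' ∈ Tn (pre (hh a S) K) n at h5
    change q' = q at h6
    rw [Tn_pre hn] at h3 h4 h5
    refine ⟨n, ?_, h6 ▸ h5⟩
    have h7 : vl (pre (hh a S) K) k (dd (S n)) = _ := filterMap_full _ h3
    rw [h7, hmap] at h4
    exact h4
  · rintro ⟨n, h1, h2⟩
    obtain ⟨K, hK⟩ := exists_bound (dd (S n)) (k + 2 + (dd (S n)).length)
    refine ⟨max K (n + 1), 0, ?_⟩
    have hn : n < max K (n + 1) := by omega
    have h3 : Fst (pre (hh a S) (max K (n + 1))) (encode (k, q)) := by
      refine ⟨n, by rw [List.mem_range, Pool.Agent.H84R6.length_pre]; exact hn, ?_⟩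
      rw [hd]
      have h4 : vl (pre (hh a S) (max K (n + 1))) k (dd (S n)) = _ :=
        filterMap_full' _ (fun q' hq' => lt_of_lt_of_le (hK q' hq') (le_max_left _ _))
      refine ⟨?_, ?_, q, ?_, rfl⟩
      · show (vl (pre (hh a S) (max K (n + 1))) k (dd (Tn (pre (hh a S) (max K (n + 1))) n))).length
          = (dd (Tn (pre (hh a S) (max K (n + 1))) n)).length
        rw [Tn_pre hn, h4, List.length_map]
      · show (vl (pre (hh a S) (max K (n + 1))) k (dd (Tn (pre (hh a S) (max K (n + 1))) n))).sum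
          ≤ 2 ^ (2 + (dd (Tn (pre (hh a S) (max K (n + 1))) n)).length)
        rw [Tn_pre hn, h4, hmap]
        exact h1
      · show q ∈ Tn (pre (hh a S) (max K (n + 1))) n
        rw [Tn_pre hn]
        exact h2
    unfold FT
    rw [if_pos h3]

theorem rec_hh {g a : ℕ → ℕ} {S : ℕ → List Str} (ha : RecursiveIn {(g : ℕ →. ℕ)} (a : ℕ →. ℕ))
    (hS : Computable S) : RecursiveIn {(g : ℕ →. ℕ)} (hh a S : ℕ →. ℕ) := by
  have h1 : RecursiveIn {(g : ℕ →. ℕ)} ((fun i => encode (S i) : ℕ → ℕ) : ℕ →. ℕ) :=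
    Partrec.recursiveIn (Computable.encode.comp hS).partrec
  rw [RecursiveIn.iff_nat] at ha h1 ⊢
  exact Pool.Agent.Helper760.OracleNF.recIn_pair g (f := a) (h := fun i => encode (S i)) ha h1

/-- every real computable from the constructed real is captured -/
theorem capture (hV : Tower V) {Y : ℕ → Bool}
    (hY : RecursiveIn {(o (XX V) : ℕ →. ℕ)} (o Y : ℕ →. ℕ))
    {μ : Measure (ℕ → Bool)} [IsProbabilityMeasure μ] (hμ : ∀ Z, μ {Z} = 0) {g a : ℕ → ℕ}
    (ha : RecursiveIn {(g : ℕ →. ℕ)} (a : ℕ →. ℕ))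
    (hap : ∀ (σ : List Bool) (p : ℕ),
      |(μ (cyl σ)).toReal - (a (encode (σ, p)) : ℝ) / 2 ^ p| ≤ 1 / 2 ^ p) :
    ∃ W : ℕ → Set (List Bool), (∃ f : ℕ →. ℕ, RecursiveIn {(g : ℕ →. ℕ)} f ∧
      ∀ n σ, σ ∈ W n ↔ (f (encode (n, σ))).Dom) ∧
      (∀ n, μ {Z | ∃ σ ∈ W n, Z ∈ cyl σ} ≤ (2⁻¹ : ℝ≥0∞) ^ n) ∧ ∀ n, ∃ σ ∈ W n, Y ∈ cyl σ := by
  obtain ⟨c, hc⟩ := Pool.Agent.H84R6.rec_tot_iff.1 hY
  have hanti := opn_antitone hV hc
  refine ⟨fun k => {q | ∃ n, cnd a k (SS V c n) ∧ q ∈ SS V c n}, ⟨fun x => Nat.rfindOpt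
    (fun K => FT (pre (hh a (SS V c)) K) x), ?_, ?_⟩, ?_, ?_⟩
  · have h1 := Pool.Agent.Helper760.OracleNF.recIn_of_stepped (hh a (SS V c)) (α := ℕ) (σ := ℕ)
      pr_FT
    exact TuringReducible.trans h1 (rec_hh ha (comp_SS hV c))
  · intro k q
    rw [Nat.rfindOpt_dom]
    exact (FT_iff k q).symm
  · intro k
    by_cases hex : ∃ n, cnd a k (SS V c n)
    · classical
      have h1 : {Z : ℕ → Bool | ∃ σ ∈ {q | ∃ n, cnd a k (SS V c n) ∧ q ∈ SS V c n}, Z ∈ cyl σ} ⊆
          opn (SS V c (Nat.find hex)) := by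
        rintro Z ⟨q, ⟨n, h2, h3⟩, h4⟩
        exact hanti (Nat.find_min' hex h2) ⟨q, h3, h4⟩
      exact (measure_mono h1).trans (cnd_bound hap (Nat.find_spec hex))
    · have h1 : {Z : ℕ → Bool | ∃ σ ∈ {q | ∃ n, cnd a k (SS V c n) ∧ q ∈ SS V c n}, Z ∈ cyl σ} = ∅ := by
        apply Set.eq_empty_of_forall_notMem
        rintro Z ⟨q, ⟨n, h2, h3⟩, h4⟩
        exact hex ⟨n, h2⟩
      rw [h1, measure_empty]
      exact bot_le
  · intro k
    obtain ⟨n, hn⟩ := exists_small hV hc hμ (k + 1)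
    obtain ⟨q, h1, h2⟩ := Y_mem hV hc n
    exact ⟨q, ⟨n, cnd_of_small hap length_SS hn, h1⟩, h2⟩

end Pool.Agent.W939.Ncr
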