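import Pool.Agent.W939.Ncr.Props

set_option autoImplicit false

namespace Pool.Agent.W939.Ncr

open Encodable
open Nat.Partrec (Code)
open Pool.Agent.H84R6 (GG primrec_GG GG_mon ph pre o)

variable {V : ℕ → ℕ → Conf}

theorem comp_of_toNat {Z : ℕ → Bool} (h : Computable (fun n => (Z n).toNat)) : Computable Z := by
  have h1 : Computable (fun n => decide ((Z n).toNat = 1)) := by
    have h2 : Primrec (fun m : ℕ => decide (m = 1)) :=
      (Primrec.eq.comp Primrec.id (Primrec.const 1)).decide
    exact (h2.to_comp.comp h :)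
  refine h1.of_eq (fun n => ?_)
  cases Z n <;> rfl

theorem comp_of_ev {Z : ℕ → Bool} {e : ℕ} (h : ∀ m, ∃ t, ev t e m = some (Z m).toNat) :
    Computable Z := by
  apply comp_of_toNat
  have h1 : Nat.Partrec (Denumerable.ofNat Code e).eval := Code.exists_code.2 ⟨_, rfl⟩
  have h2 : Partrec (fun m => (Denumerable.ofNat Code e).eval m) := Partrec.nat_iff.2 h1
  refine h2.of_eq_tot (fun m => ?_)
  obtain ⟨t, ht⟩ := h m
  exact Code.evaln_sound (Option.mem_def.2 ht)

theorem ev_of_comp {Z : ℕ → Bool} (h : Computable Z) :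
    ∃ e, ∀ m, ∃ t, ev t e m = some (Z m).toNat := by
  have h1 : Computable (fun n => (Z n).toNat) :=
    (Primrec.dom_finite Bool.toNat).to_comp.comp h
  have h2 : Nat.Partrec (fun n => Part.some (Z n).toNat) := Partrec.nat_iff.1 h1.partrec
  obtain ⟨c, hcc⟩ := Code.exists_code.1 h2
  refine ⟨encode c, fun m => ?_⟩
  have h9 : (Z m).toNat ∈ c.eval m := by
    rw [hcc]; exact Part.mem_some _
  obtain ⟨k, hk⟩ := Code.evaln_complete.1 h9
  refine ⟨k, ?_⟩
  unfold ev
  rw [Denumerable.ofNat_encode]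
  exact hk

theorem toNat_inj {a b : Bool} (h : a.toNat = b.toNat) : a = b := by
  cases a <;> cases b <;> simp at h ⊢

/-- the constructed real is the only member of the class that is not computable -/
theorem X_unique (hV : Tower V) {Z : ℕ → Bool} (hZ : ∀ n, ∃ τ ∈ toks (U0 n), On Z τ) :
    Computable Z ∨ Z = XX V := by
  have hval : Computable₂ (fun (τ : Str) (n : ℕ) => (τ[n]?).map Bool.toNat) := by
    have h1 : Primrec₂ (fun (τ : Str) (n : ℕ) => (τ[n]?).map Bool.toNat) :=
      Primrec.option_map Primrec.list_getElem? ((Primrec.dom_finite Bool.toNat).comp Primrec.snd)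
    exact h1.to_comp
  have k1 : ∀ (σ τ : Str) (n v : ℕ), σ <+: τ → (σ[n]?).map Bool.toNat = some v →
      (τ[n]?).map Bool.toNat = some v := by
    intro σ τ n v h1 h2
    obtain ⟨b, h3, h4⟩ := Option.map_eq_some_iff.1 h2
    rw [getElem?_pre' h1 h3, ← h4]
    rfl
  have k2 : ∀ j, ∀ τ ∈ toks (V 0 j), ∀ i < j, ((τ[i]?).map Bool.toNat).isSome := by
    intro j τ hτ i hi
    have h1 := (hV.run 0).len j τ hτ
    rw [List.getElem?_eq_getElem (by omega : i < τ.length)]
    rfl
  have k3 : ∀ n, ∃ τ ∈ toks (V 0 n), ∀ i < n, (τ[i]?).map Bool.toNat = some (Z i).toNat := by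
    intro n
    obtain ⟨τ, h1, h2⟩ := hZ n
    rw [← hV.zero] at h1
    refine ⟨τ, h1, fun i hi => ?_⟩
    have h3 := (hV.run 0).len n τ h1
    have h4 : τ[i]? = some τ[i] := List.getElem?_eq_getElem (by omega : i < τ.length)
    rw [h4, ← h2 i _ h4]
    rfl
  rcases cls hV (val := fun (τ : Str) (n : ℕ) => (τ[n]?).map Bool.toNat) k1 hval (ℓ0 := 0) k2
    (Z := fun n => (Z n).toNat) k3 with h | h
  · exact Or.inl (comp_of_toNat h)
  · right
    funext n
    obtain ⟨ℓ, h1⟩ := h n
    obtain ⟨b, h2, h3⟩ := Option.map_eq_some_iff.1 h1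
    have h4 := On_root hV ℓ n b h2
    rw [← h4]
    exact (toNat_inj h3).symm

/-! ### the analytic definition -/

def zc (l : List ℕ) (i : ℕ) : Bool := decide ((l.getD i 0).unpair.1 = 1)
def hc (l : List ℕ) (i : ℕ) : ℕ := (l.getD i 0).unpair.2

def c1 (i : ℕ) (q : List ℕ × Str) : Prop := q.2.getD i (zc q.1 i) = zc q.1 i
def c2 (τ : Str) (l : List ℕ) : Prop := ∀ i ∈ List.range l.length, c1 i (l, τ)
def c3 (j : ℕ) (l : List ℕ) : Prop := ∃ τ ∈ toks (U0 j), c2 τ l
def c4 (l : List ℕ) : Prop := ∀ j ∈ List.range l.length, c3 j l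
def d1 (t : ℕ) (q : List ℕ × ℕ) : Prop := ev t q.2 (hc q.1 q.2) ≠ some (zc q.1 (hc q.1 q.2)).toNat
def d2 (e : ℕ) (l : List ℕ) : Prop := hc l e < l.length → ∀ t ∈ List.range l.length, d1 t (l, e)
def d3 (l : List ℕ) : Prop := ∀ e ∈ List.range l.length, d2 e l
def RR (b : Bool) (q : ℕ × List ℕ) : Prop :=
  c4 q.2 ∧ d3 q.2 ∧ (q.1 < q.2.length → zc q.2 q.1 = b)

theorem pr_zc : Primrec₂ zc := by
  unfold zc
  have h1 : Primrec (fun m : ℕ => decide (m.unpair.1 = 1)) :=
    (Primrec.eq.comp (Primrec.fst.comp Primrec.unpair) (Primrec.const 1)).decide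
  exact (h1.comp (Primrec.list_getD 0) :)

theorem pr_hc : Primrec₂ hc := by
  unfold hc
  exact (Primrec.snd.comp (Primrec.unpair.comp (Primrec.list_getD 0)) :)

theorem pr_getD_bool : Primrec (fun z : Str × ℕ × Bool => z.1.getD z.2.1 z.2.2) := by
  have h : Primrec (fun z : Str × ℕ × Bool => (z.1[z.2.1]?).getD z.2.2) :=
    Primrec.option_getD.comp (Primrec.list_getElem?.comp Primrec.fst
      (Primrec.fst.comp Primrec.snd)) (Primrec.snd.comp Primrec.snd)
  exact h.of_eq (fun z => by simp [List.getD_eq_getElem?_getD])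

theorem pr_c1 : PrimrecRel c1 := by
  unfold c1
  have h1 : Primrec (fun z : ℕ × (List ℕ × Str) => zc z.2.1 z.1) :=
    pr_zc.comp (Primrec.fst.comp Primrec.snd) Primrec.fst
  have h2 : Primrec (fun z : ℕ × (List ℕ × Str) => (z.2.2, z.1, zc z.2.1 z.1)) :=
    Primrec.pair (Primrec.snd.comp Primrec.snd) (Primrec.pair Primrec.fst h1)
  exact Primrec.eq.comp (pr_getD_bool.comp h2 :) h1

theorem pr_c2 : PrimrecRel c2 := by
  unfold c2
  exact pr_c1.forall_mem_list.comp (Primrec.list_range.comp (Primrec.list_length.comp Primrec.snd))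
    (Primrec.pair Primrec.snd Primrec.fst)

theorem pr_c3 : PrimrecRel c3 := by
  unfold c3
  exact pr_c2.exists_mem_list.comp (pr_toks.comp (pr_U0.comp Primrec.fst)) Primrec.snd

theorem pr_c4 : PrimrecPred c4 := by
  unfold c4
  exact pr_c3.forall_mem_list.comp (Primrec.list_range.comp Primrec.list_length) Primrec.id

theorem pr_d1 : PrimrecRel d1 := by
  unfold d1
  have h1 : Primrec (fun z : ℕ × (List ℕ × ℕ) => hc z.2.1 z.2.2) :=
    pr_hc.comp (Primrec.fst.comp Primrec.snd) (Primrec.snd.comp Primrec.snd)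
  have h2 : Primrec (fun z : ℕ × (List ℕ × ℕ) => (z.1, z.2.2, hc z.2.1 z.2.2)) :=
    Primrec.pair Primrec.fst (Primrec.pair (Primrec.snd.comp Primrec.snd) h1)
  have h3 : Primrec (fun z : ℕ × (List ℕ × ℕ) => zc z.2.1 (hc z.2.1 z.2.2)) :=
    pr_zc.comp (Primrec.fst.comp Primrec.snd) h1
  exact PrimrecPred.not (Primrec.eq.comp (pr_ev.comp h2 :)
    (Primrec.option_some.comp ((Primrec.dom_finite Bool.toNat).comp h3)))

theorem pr_d2 : PrimrecRel d2 := by
  have h1 : PrimrecRel (fun (e : ℕ) (l : List ℕ) => ¬ (hc l e < l.length) ∨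
      ∀ t ∈ List.range l.length, d1 t (l, e)) := by
    refine PrimrecPred.or (PrimrecPred.not ?_) ?_
    · exact Primrec.nat_lt.comp (pr_hc.comp Primrec.snd Primrec.fst)
        (Primrec.list_length.comp Primrec.snd)
    · exact pr_d1.forall_mem_list.comp
        (Primrec.list_range.comp (Primrec.list_length.comp Primrec.snd))
        (Primrec.pair Primrec.snd Primrec.fst)
  refine h1.of_eq (fun p => ?_)
  unfold d2
  tauto

theorem pr_d3 : PrimrecPred d3 := by
  unfold d3
  exact pr_d2.forall_mem_list.comp (Primrec.list_range.comp Primrec.list_length) Primrec.id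

theorem pr_RR (b : Bool) : PrimrecPred (RR b) := by
  have h1 : PrimrecPred (fun q : ℕ × List ℕ => c4 q.2 ∧ d3 q.2 ∧
      (¬ (q.1 < q.2.length) ∨ zc q.2 q.1 = b)) := by
    refine PrimrecPred.and (pr_c4.comp Primrec.snd) (PrimrecPred.and (pr_d3.comp Primrec.snd)
      (PrimrecPred.or (PrimrecPred.not ?_) ?_))
    · exact Primrec.nat_lt.comp Primrec.fst (Primrec.list_length.comp Primrec.snd)
    · exact Primrec.eq.comp (pr_zc.comp Primrec.snd Primrec.fst) (Primrec.const b)
  refine h1.of_eq (fun p => ?_)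
  unfold RR
  tauto

theorem getD_map {f : ℕ → ℕ} {k i : ℕ} (h : i < k) : ((List.range k).map f).getD i 0 = f i := by
  rw [List.getD_eq_getElem?_getD, List.getElem?_map, List.getElem?_range h]
  rfl

theorem zc_map {f : ℕ → ℕ} {k i : ℕ} (h : i < k) :
    zc ((List.range k).map f) i = decide ((f i).unpair.1 = 1) := by
  unfold zc
  rw [getD_map h]

theorem hc_map {f : ℕ → ℕ} {k i : ℕ} (h : i < k) :
    hc ((List.range k).map f) i = (f i).unpair.2 := by
  unfold hc
  rw [getD_map h]

theorem length_map_range (f : ℕ → ℕ) (k : ℕ) : ((List.range k).map f).length = k := by simp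

/-- the real is hyperarithmetic -/
theorem X_hyp (hV : Tower V) (b : Bool) (n : ℕ) : XX V n = b ↔
    ∃ f : ℕ → ℕ, ∀ k, RR b (n, (List.range k).map f) := by
  constructor
  · intro hb
    have hw : ∀ e, ∃ m, ∀ t, ev t e m ≠ some (XX V m).toNat := by
      intro e
      by_contra hc
      push Not at hc
      exact X_nc hV (comp_of_ev hc)
    choose h hh using hw
    have hz : ∀ i, decide ((Nat.pair (XX V i).toNat (h i)).unpair.1 = 1) = XX V i := by
      intro i
      rw [Nat.unpair_pair]
      cases XX V i <;> rfl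
    refine ⟨fun i => Nat.pair (XX V i).toNat (h i), fun k => ⟨?_, ?_, ?_⟩⟩
    · intro j _
      obtain ⟨τ, h1, h2⟩ := X_in hV 0 j
      rw [hV.zero] at h1
      refine ⟨τ, h1, fun i hi => ?_⟩
      rw [List.mem_range, length_map_range] at hi
      show τ.getD i (zc _ i) = zc _ i
      rw [zc_map hi, hz, List.getD_eq_getElem?_getD]
      cases h3 : τ[i]? with
      | none => rfl
      | some c => exact h2 i c h3
    · intro e he
      rw [List.mem_range, length_map_range] at he
      intro h1 t _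
      rw [hc_map he, Nat.unpair_pair, length_map_range] at h1
      show ev t e (hc _ e) ≠ some (zc _ (hc _ e)).toNat
      rw [hc_map he, Nat.unpair_pair, zc_map h1, hz]
      exact hh e t
    · intro h1
      rw [length_map_range] at h1
      rw [zc_map h1, hz]
      exact hb
  · rintro ⟨f, hf⟩
    set Z : ℕ → Bool := fun i => decide ((f i).unpair.1 = 1) with hZ
    have hz : ∀ k i, i < k → zc ((List.range k).map f) i = Z i := fun k i h => zc_map h
    have h1 : ∀ j, ∃ τ ∈ toks (U0 j), On Z τ := by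
      intro j
      by_contra hcon
      push Not at hcon
      have h2 : ∀ τ ∈ toks (U0 j), ∃ i b, τ[i]? = some b ∧ b ≠ Z i := by
        intro τ hτ
        have h3 := hcon τ hτ
        unfold On at h3
        push Not at h3
        exact h3
      -- a bound for the disagreements
      have h4 : ∃ K, ∀ τ ∈ toks (U0 j), ∃ i < K, ∃ b, τ[i]? = some b ∧ b ≠ Z i := by
        have h5 : ∀ T : List Str, (∀ τ ∈ T, ∃ i b, τ[i]? = some b ∧ b ≠ Z i) →
            ∃ K, ∀ τ ∈ T, ∃ i < K, ∃ b, τ[i]? = some b ∧ b ≠ Z i := by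
          intro T
          induction T with
          | nil => intro _; exact ⟨0, fun τ hτ => absurd hτ (by simp)⟩
          | cons a T ih =>
            intro h6
            obtain ⟨K, hK⟩ := ih (fun τ hτ => h6 τ (List.mem_cons_of_mem _ hτ))
            obtain ⟨i, b, h7, h8⟩ := h6 a (by simp)
            refine ⟨max K (i + 1), fun τ hτ => ?_⟩
            rcases List.mem_cons.1 hτ with h9 | h9
            · exact ⟨i, by omega, b, by rw [h9]; exact h7, h8⟩
            · obtain ⟨i', h10, h11⟩ := hK τ h9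
              exact ⟨i', by omega, h11⟩
        exact h5 _ h2
      obtain ⟨K, hK⟩ := h4
      obtain ⟨h5, -⟩ := hf (max K (j + 1))
      obtain ⟨τ, h6, h7⟩ := h5 j (by rw [List.mem_range, length_map_range]; omega)
      obtain ⟨i, h8, b', h9, h10⟩ := hK τ h6
      have h11 := h7 i (by rw [List.mem_range, length_map_range]; omega)
      have h12 : τ.getD i (zc ((List.range (max K (j + 1))).map f) i) =
        zc ((List.range (max K (j + 1))).map f) i := h11
      rw [hz _ _ (by omega), List.getD_eq_getElem?_getD, h9] at h12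
      exact h10 h12
    rcases X_unique hV h1 with h2 | h2
    · exfalso
      obtain ⟨e, he⟩ := ev_of_comp h2
      obtain ⟨t, ht⟩ := he (f e).unpair.2
      obtain ⟨-, h3, -⟩ := hf (max (e + 1) (max (t + 1) ((f e).unpair.2 + 1)))
      have h4 := h3 e (by rw [List.mem_range, length_map_range]; omega)
      have h5 : hc ((List.range (max (e + 1) (max (t + 1) ((f e).unpair.2 + 1)))).map f) e =
        (f e).unpair.2 := hc_map (by omega)
      have h6 := h4 (by rw [h5, length_map_range]; omega) t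
        (by rw [List.mem_range, length_map_range]; omega)
      apply h6
      show ev t e (hc _ e) = some (zc _ (hc _ e)).toNat
      rw [h5, hz _ _ (by omega)]
      exact ht
    · obtain ⟨-, -, h3⟩ := hf (n + 1)
      have h4 := h3 (by rw [length_map_range]; omega)
      rw [hz _ _ (by omega)] at h4
      rw [← h2]
      exact h4

end Pool.Agent.W939.Ncr
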