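import Pool.Agent.W939.Ncr.Props

set_option autoImplicit false

/-!
# Measures on cylinders
-/

namespace Pool.Agent.W939.Ncr

open Encodable MeasureTheory
open scoped ENNReal

/-- the cylinder -/
def cyl (σ : List Bool) : Set (ℕ → Bool) := {Z | ∀ i (h : i < σ.length), Z i = σ[i]}

theorem cyl_eq (σ : Str) : cyl σ = ⋂ i : Fin σ.length, (fun Z : ℕ → Bool => Z i) ⁻¹' {σ[i]} := by
  ext Z
  simp only [cyl, Set.mem_setOf_eq, Set.mem_iInter, Set.mem_preimage, Set.mem_singleton_iff]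
  constructor
  · intro h i
    exact h i i.2
  · intro h i hi
    exact h ⟨i, hi⟩

theorem meas_cyl (σ : Str) : MeasurableSet (cyl σ) := by
  rw [cyl_eq]
  refine MeasurableSet.iInter (fun i => ?_)
  exact measurable_pi_apply _ (MeasurableSet.singleton _)

theorem disj_cyl {σ τ : Str} (hl : σ.length = τ.length) (hne : σ ≠ τ) :
    Disjoint (cyl σ) (cyl τ) := by
  rw [Set.disjoint_left]
  intro Z h1 h2
  apply hne
  apply List.ext_getElem hl
  intro i hi hi'
  rw [← h1 i hi, ← h2 i hi']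

/-- the open set of a list -/
def opn (T : List Str) : Set (ℕ → Bool) := {Z | ∃ q ∈ T, Z ∈ cyl q}

theorem opn_eq (T : List Str) : opn T = ⋃ q ∈ T.toFinset, cyl q := by
  ext Z
  simp [opn]

theorem meas_opn (T : List Str) : MeasurableSet (opn T) := by
  rw [opn_eq]
  exact Finset.measurableSet_biUnion _ (fun q _ => meas_cyl q)

/-! ### removing repetitions -/

def insq (q : Str) (acc : List Str) : List Str := if ∃ a ∈ acc, a = q then acc else q :: acc

def dd (T : List Str) : List Str := T.foldr insq []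

theorem pr_insq : Primrec₂ insq := by
  unfold insq
  refine Primrec.ite ?_ Primrec.snd (Primrec.list_cons.comp Primrec.fst Primrec.snd)
  have h : PrimrecRel (fun (a q : Str) => a = q) := Primrec.eq
  exact h.exists_mem_list.comp Primrec.snd Primrec.fst

theorem pr_dd : Primrec dd := by
  unfold dd
  exact Primrec.list_foldr (f := fun T : List Str => T) (g := fun _ => [])
    (h := fun (_ : List Str) (p : Str × List Str) => insq p.1 p.2) Primrec.id (Primrec.const [])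
    (pr_insq.comp (Primrec.fst.comp Primrec.snd) (Primrec.snd.comp Primrec.snd))

theorem dd_spec (T : List Str) : (dd T).Nodup ∧ ∀ q, q ∈ dd T ↔ q ∈ T := by
  induction T with
  | nil => exact ⟨List.nodup_nil, fun q => Iff.rfl⟩
  | cons a T ih =>
    have h0 : dd (a :: T) = insq a (dd T) := rfl
    rw [h0]
    unfold insq
    by_cases h : ∃ x ∈ dd T, x = a
    · rw [if_pos h]
      obtain ⟨x, h1, rfl⟩ := h
      refine ⟨ih.1, fun q => ?_⟩
      rw [ih.2, List.mem_cons]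
      constructor
      · exact Or.inr
      · rintro (h2 | h2)
        · rw [h2]; exact (ih.2 _).1 h1
        · exact h2
    · rw [if_neg h]
      refine ⟨List.nodup_cons.2 ⟨fun h1 => h ⟨a, h1, rfl⟩, ih.1⟩, fun q => ?_⟩
      rw [List.mem_cons, List.mem_cons, ih.2]

theorem dd_toFinset (T : List Str) : (dd T).toFinset = T.toFinset := by
  ext q
  rw [List.mem_toFinset, List.mem_toFinset, (dd_spec T).2]

theorem dd_card (T : List Str) : T.toFinset.card = (dd T).length := by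
  rw [← dd_toFinset, List.toFinset_card_of_nodup (dd_spec T).1]

/-- the sum of the approximations -/
def sm (a : ℕ → ℕ) (D : List Str) (p : ℕ) : ℕ := (D.map (fun q => a (encode (q, p)) + 1)).sum

theorem sm_dd (a : ℕ → ℕ) (T : List Str) (p : ℕ) :
    sm a (dd T) p = ∑ q ∈ T.toFinset, (a (encode (q, p)) + 1) := by
  unfold sm
  rw [← dd_toFinset, List.sum_toFinset _ (dd_spec T).1]

/-- the condition that bounds the measure -/
def cnd (a : ℕ → ℕ) (k : ℕ) (T : List Str) : Prop :=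
  sm a (dd T) (k + 2 + (dd T).length) ≤ 2 ^ (2 + (dd T).length)

section
variable {μ : Measure (ℕ → Bool)} [IsProbabilityMeasure μ] {a : ℕ → ℕ}

theorem le_real (hap : ∀ (σ : List Bool) (p : ℕ),
      |(μ (cyl σ)).toReal - (a (encode (σ, p)) : ℝ) / 2 ^ p| ≤ 1 / 2 ^ p) (q : Str) (p : ℕ) :
    (μ (cyl q)).toReal ≤ ((a (encode (q, p)) + 1 : ℕ) : ℝ) / 2 ^ p ∧
    ((a (encode (q, p)) + 1 : ℕ) : ℝ) ≤ 2 ^ p * (μ (cyl q)).toReal + 2 := by
  have h := abs_le.1 (hap q p)
  have h2 : (0 : ℝ) < 2 ^ p := by positivity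
  push_cast
  constructor
  · rw [add_div]; linarith [h.2]
  · have h3 := h.1
    have h4 : (a (encode (q, p)) : ℝ) / 2 ^ p ≤ (μ (cyl q)).toReal + 1 / 2 ^ p := by linarith
    rw [div_le_iff₀ h2] at h4
    have h5 : ((μ (cyl q)).toReal + 1 / 2 ^ p) * 2 ^ p = 2 ^ p * (μ (cyl q)).toReal + 1 := by
      field_simp
    rw [h5] at h4
    linarith

theorem cnd_bound (hap : ∀ (σ : List Bool) (p : ℕ),
      |(μ (cyl σ)).toReal - (a (encode (σ, p)) : ℝ) / 2 ^ p| ≤ 1 / 2 ^ p) {k : ℕ} {T : List Str}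
    (h : cnd a k T) : μ (opn T) ≤ (2⁻¹ : ℝ≥0∞) ^ k := by
  have h1 : μ (opn T) ≤ ∑ q ∈ T.toFinset, μ (cyl q) := by
    rw [opn_eq]
    exact measure_biUnion_finset_le _ _
  refine h1.trans ?_
  have h2 : ∑ q ∈ T.toFinset, μ (cyl q) =
      ENNReal.ofReal (∑ q ∈ T.toFinset, (μ (cyl q)).toReal) := by
    rw [ENNReal.ofReal_sum_of_nonneg (fun _ _ => ENNReal.toReal_nonneg)]
    refine Finset.sum_congr rfl (fun q _ => ?_)
    rw [ENNReal.ofReal_toReal (measure_ne_top μ _)]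
  rw [h2]
  set p := k + 2 + (dd T).length with hp
  have h3 : ∑ q ∈ T.toFinset, (μ (cyl q)).toReal ≤ (1 / 2) ^ k := by
    have h4 : ∑ q ∈ T.toFinset, (μ (cyl q)).toReal ≤
        ∑ q ∈ T.toFinset, ((a (encode (q, p)) + 1 : ℕ) : ℝ) / 2 ^ p :=
      Finset.sum_le_sum (fun q _ => (le_real hap q p).1)
    refine h4.trans ?_
    rw [← Finset.sum_div]
    have h5 : ∑ q ∈ T.toFinset, ((a (encode (q, p)) + 1 : ℕ) : ℝ) ≤ 2 ^ (2 + (dd T).length) := by
      have h6 : sm a (dd T) p ≤ 2 ^ (2 + (dd T).length) := h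
      rw [sm_dd] at h6
      exact_mod_cast h6
    rw [div_le_iff₀ (by positivity)]
    refine h5.trans (le_of_eq ?_)
    rw [hp, show k + 2 + (dd T).length = k + (2 + (dd T).length) by ring, pow_add (2 : ℝ) k,
      ← mul_assoc, ← mul_pow]
    norm_num
  have h7 : (2⁻¹ : ℝ≥0∞) ^ k = ENNReal.ofReal ((1 / 2) ^ k) := by
    rw [ENNReal.ofReal_pow (by norm_num)]
    congr 1
    rw [ENNReal.ofReal_div_of_pos (by norm_num)]
    norm_num
  rw [h7]
  exact ENNReal.ofReal_le_ofReal h3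

theorem two_mul_le_pow (L : ℕ) : 2 * L ≤ 2 ^ (1 + L) := by
  have := Nat.lt_two_pow_self (n := L)
  rw [pow_add]
  omega

theorem cnd_of_small (hap : ∀ (σ : List Bool) (p : ℕ),
      |(μ (cyl σ)).toReal - (a (encode (σ, p)) : ℝ) / 2 ^ p| ≤ 1 / 2 ^ p) {k n : ℕ} {T : List Str}
    (hT : ∀ q ∈ T, q.length = n) (h : μ (opn T) ≤ (2⁻¹ : ℝ≥0∞) ^ (k + 1)) : cnd a k T := by
  have h1 : μ (opn T) = ∑ q ∈ T.toFinset, μ (cyl q) := by
    rw [opn_eq]
    refine measure_biUnion_finset ?_ (fun q _ => meas_cyl q)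
    intro q hq q' hq' hne
    exact disj_cyl ((hT q (by simpa using hq)).trans (hT q' (by simpa using hq')).symm) hne
  have h2 : ∑ q ∈ T.toFinset, μ (cyl q) =
      ENNReal.ofReal (∑ q ∈ T.toFinset, (μ (cyl q)).toReal) := by
    rw [ENNReal.ofReal_sum_of_nonneg (fun _ _ => ENNReal.toReal_nonneg)]
    refine Finset.sum_congr rfl (fun q _ => ?_)
    rw [ENNReal.ofReal_toReal (measure_ne_top μ _)]
  have h7 : (2⁻¹ : ℝ≥0∞) ^ (k + 1) = ENNReal.ofReal ((1 / 2) ^ (k + 1)) := by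
    rw [ENNReal.ofReal_pow (by norm_num)]
    congr 1
    rw [ENNReal.ofReal_div_of_pos (by norm_num)]
    norm_num
  rw [h1, h2, h7, ENNReal.ofReal_le_ofReal_iff (by positivity)] at h
  unfold cnd
  set L := (dd T).length with hL
  set p := k + 2 + L with hp
  rw [sm_dd]
  have h3 : ((∑ q ∈ T.toFinset, (a (encode (q, p)) + 1) : ℕ) : ℝ) ≤ 2 ^ (2 + L) := by
    rw [Nat.cast_sum]
    have h4 : ∑ q ∈ T.toFinset, ((a (encode (q, p)) + 1 : ℕ) : ℝ) ≤
        ∑ q ∈ T.toFinset, (2 ^ p * (μ (cyl q)).toReal + 2) :=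
      Finset.sum_le_sum (fun q _ => (le_real hap q p).2)
    refine h4.trans ?_
    rw [Finset.sum_add_distrib, ← Finset.mul_sum, Finset.sum_const, dd_card, ← hL]
    have h5 : (2 : ℝ) ^ p * ∑ q ∈ T.toFinset, (μ (cyl q)).toReal ≤ 2 ^ (1 + L) := by
      have h6 : (2 : ℝ) ^ p * ∑ q ∈ T.toFinset, (μ (cyl q)).toReal ≤
          2 ^ p * (1 / 2) ^ (k + 1) := mul_le_mul_of_nonneg_left h (by positivity)
      refine h6.trans (le_of_eq ?_)
      rw [hp, show k + 2 + L = (1 + L) + (k + 1) by ring, pow_add (2 : ℝ) (1 + L), mul_assoc,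
        ← mul_pow]
      norm_num
    have h8 : (L • (2 : ℝ)) ≤ 2 ^ (1 + L) := by
      rw [nsmul_eq_mul]
      have := two_mul_le_pow L
      have h9 : ((2 * L : ℕ) : ℝ) ≤ ((2 ^ (1 + L) : ℕ) : ℝ) := by exact_mod_cast this
      push_cast at h9
      linarith
    calc (2 : ℝ) ^ p * ∑ q ∈ T.toFinset, (μ (cyl q)).toReal + L • (2 : ℝ)
        ≤ 2 ^ (1 + L) + 2 ^ (1 + L) := add_le_add h5 h8
      _ = 2 ^ (2 + L) := by rw [show 2 + L = (1 + L) + 1 by ring, pow_succ]; ring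
  exact_mod_cast h3

end

end Pool.Agent.W939.Ncr
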