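import Pool.Agent.W939.Ncr.Seq

set_option autoImplicit false

namespace Pool.Agent.W939.Ncr

open Encodable
open Nat.Partrec (Code)
open Pool.Agent.H84R6 (GG primrec_GG GG_mon ph pre o)

variable {V : ℕ → ℕ → Conf}

/-- the real is not computable -/
theorem X_nc (hV : Tower V) : ¬ Computable (XX V) := by
  intro hc
  have h1 : Computable (fun n => (XX V n).toNat) :=
    (Primrec.dom_finite Bool.toNat).to_comp.comp hc
  have h2 : Nat.Partrec (fun n => Part.some (XX V n).toNat) := Partrec.nat_iff.1 h1.partrec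
  obtain ⟨c, hcc⟩ := Code.exists_code.1 h2
  obtain ⟨-, h3, -⟩ := hV.nx (2 * encode c)
  obtain ⟨m, b, h4, h5⟩ := h3 (encode c) rfl
  obtain ⟨τ, h6, h7⟩ := X_in hV (2 * encode c + 1) 0
  have h8 : b = XX V m := h7 m b (h4 τ h6)
  have h9 : (XX V m).toNat ∈ c.eval m := by
    rw [hcc]; exact Part.mem_some _
  obtain ⟨k, hk⟩ := Code.evaln_complete.1 h9
  apply h5 k
  unfold ev
  rw [Denumerable.ofNat_encode, h8]
  exact hk

theorem long_on (hV : Tower V) (ℓ n : ℕ) : ∃ τ ∈ toks (V ℓ n), n ≤ τ.length ∧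
    nn τ = pre (o (XX V)) τ.length := by
  obtain ⟨τ, h1, h2⟩ := X_in hV ℓ n
  exact ⟨τ, h1, (hV.run ℓ).len n τ h1, h2.nn_eq⟩

/-- a functional that is total on the real is total on the tokens of a run -/
theorem tot_of_total (hV : Tower V) {c : ℕ} (h : ∀ n, ∃ v, ph c (o (XX V)) n v) :
    ∀ j, ∀ τ ∈ toks (V (2 * c + 2) j), ∀ i < j, (GG (nn τ) c i).isSome := by
  obtain ⟨-, -, h3⟩ := hV.nx (2 * c + 1)
  rcases h3 c rfl with ⟨k, h4⟩ | h4
  · exfalso
    obtain ⟨v, K, hK⟩ := h k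
    obtain ⟨τ, h5, h6, h7⟩ := long_on hV (2 * c + 2) K
    have h8 := h4 K τ h5
    rw [h7] at h8
    have h9 := GG_mon (Pool.Agent.H84R6.pre_pre (o (XX V)) h6) hK
    rw [h8] at h9
    exact absurd h9 (by simp)
  · exact h4

/-- the largest value -/
def mx (T : List Str) (c n : ℕ) : ℕ := T.foldr (fun τ m => max ((GG (nn τ) c n).getD 0) m) 0

theorem le_mx {T : List Str} {c n v : ℕ} {τ : Str} (h : τ ∈ T) (hv : GG (nn τ) c n = some v) :
    v ≤ mx T c n := by
  induction T with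
  | nil => exact absurd h (by simp)
  | cons a T ih =>
    show v ≤ max _ (mx T c n)
    rcases List.mem_cons.1 h with h1 | h1
    · rw [← h1, hv]
      exact le_max_left _ _
    · exact le_trans (ih h1) (le_max_right _ _)

theorem pr_mx (c : ℕ) : Primrec₂ (fun (T : List Str) (n : ℕ) => mx T c n) := by
  refine Primrec.list_foldr (f := fun p : List Str × ℕ => p.1) (g := fun _ => 0)
    (h := fun (p : List Str × ℕ) (q : Str × ℕ) => max ((GG (nn q.1) c p.2).getD 0) q.2)
    Primrec.fst (Primrec.const 0) ?_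
  refine Primrec.nat_max.comp ?_ (Primrec.snd.comp Primrec.snd)
  refine Primrec.option_getD.comp ?_ (Primrec.const 0)
  have h1 : Primrec (fun z : (List Str × ℕ) × (Str × ℕ) => (nn z.2.1, c, z.1.2)) :=
    Primrec.pair (pr_nn.comp (Primrec.fst.comp Primrec.snd)) (Primrec.pair (Primrec.const c)
      (Primrec.snd.comp Primrec.fst))
  exact (primrec_GG.comp h1 :)

/-- the real is hyperimmune-free -/
theorem X_hif (hV : Tower V) {f : ℕ → ℕ}
    (hf : RecursiveIn {(o (XX V) : ℕ →. ℕ)} (f : ℕ →. ℕ)) :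
    ∃ g : ℕ → ℕ, Computable g ∧ ∀ n, f n ≤ g n := by
  obtain ⟨c, hc⟩ := Pool.Agent.H84R6.rec_tot_iff.1 hf
  have h1 := tot_of_total hV (c := c) (fun n => ⟨f n, hc n⟩)
  refine ⟨fun n => mx (toks (V (2 * c + 2) (n + 1))) c n, ?_, fun n => ?_⟩
  · have h2 : Computable (fun n => toks (V (2 * c + 2) (n + 1))) :=
      pr_toks.to_comp.comp ((hV.run _).comp.comp Computable.succ)
    exact ((pr_mx c).to_comp.comp h2 Computable.id :)
  · obtain ⟨τ, h2, h3, h4⟩ := long_on hV (2 * c + 2) (n + 1)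
    obtain ⟨v, hv⟩ := Option.isSome_iff_exists.1 (h1 (n + 1) τ h2 n (by omega))
    have h5 : v = f n := by
      apply Pool.Agent.H84R6.ph_unique (c := c) (g := o (XX V)) (n := n) _ (hc n)
      exact ⟨_, h4 ▸ hv⟩
    rw [← h5]
    exact le_mx h2 hv

end Pool.Agent.W939.Ncr
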