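import Pool.Agent.W939.Ncr.Tok

set_option autoImplicit false

namespace Pool.Agent.W939.Ncr

open Encodable
open Nat.Partrec (Code)
open Pool.Agent.H84R6 (GG primrec_GG GG_mon)

/-- proper extension -/
def pp (σ τ : Str) : Prop := σ <+: τ ∧ σ.length < τ.length

theorem pp.pre {σ τ : Str} (h : pp σ τ) : σ <+: τ := h.1

theorem forall₂_mono {α β : Type*} {r r' : α → β → Prop} (hr : ∀ a b, r a b → r' a b)
    {l : List α} {l' : List β} (h : List.Forall₂ r l l') : List.Forall₂ r' l l' :=
  h.imp (fun a b => hr a b)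

/-- a run of the construction that starts with a leaf of level `ℓ` -/
structure Run (ℓ : ℕ) (U : ℕ → Conf) : Prop where
  start : ∃ σ, U 0 = ([], (ℓ, σ))
  next : ∀ n, CR pp (step (U n)) (U (n + 1))
  comp : Computable U

theorem ref_of_CR {c c' : Conf} (h : CR pp c c') : Ref (toks c) (toks c') :=
  Ref.of_forall₂ (forall₂_mono (fun _ _ h => h.1) (CR_toks h))

theorem Run.ref_succ {ℓ : ℕ} {U : ℕ → Conf} (h : Run ℓ U) (n : ℕ) :
    Ref (toks (U n)) (toks (U (n + 1))) := (ref_step _).trans (ref_of_CR (h.next n))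

theorem Run.ref {ℓ : ℕ} {U : ℕ → Conf} (h : Run ℓ U) {n m : ℕ} (hnm : n ≤ m) :
    Ref (toks (U n)) (toks (U m)) := by
  induction m, hnm using Nat.le_induction with
  | base => exact Ref.of_subset (List.Subset.refl _)
  | succ m _ ih => exact ih.trans (h.ref_succ m)

theorem mem_of_forall₂ {α β : Type*} {r : α → β → Prop} {l : List α} {l' : List β}
    (h : List.Forall₂ r l l') {b : β} (hb : b ∈ l') : ∃ a ∈ l, r a b := by
  induction h with
  | nil => exact absurd hb (by simp)
  | @cons a b' T T' h1 _ ih =>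
    rcases List.mem_cons.1 hb with rfl | hb
    · exact ⟨a, by simp, h1⟩
    · obtain ⟨σ, h2, h3⟩ := ih hb
      exact ⟨σ, List.mem_cons_of_mem _ h2, h3⟩

theorem Run.len {ℓ : ℕ} {U : ℕ → Conf} (h : Run ℓ U) (n : ℕ) : ∀ τ ∈ toks (U n), n ≤ τ.length := by
  induction n with
  | zero => intro τ _; omega
  | succ n ih =>
    intro τ hτ
    obtain ⟨σ, h1, h2⟩ := mem_of_forall₂ (CR_toks (h.next n)) hτ
    obtain ⟨ρ, h3, h4⟩ := ref_step _ σ h1
    have h5 := ih ρ h3
    have h6 := h4.length_le
    have h7 := h2.2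
    omega

/-- a subrun -/
structure Dec (U U' : ℕ → Conf) (t : ℕ → ℕ) (P : ℕ → List Str) : Prop where
  lt : ∀ j, j < t j
  sub : ∀ j, toks (U' j) ⊆ toks (U (t j))
  comp : Computable P
  nest : ∀ j, List.Forall₂ (· <+: ·) (P j) (P (j + 1))
  cov : ∃ j0, ∀ j, j0 ≤ j → ∀ τ ∈ toks (U (t j)), τ ∈ P j ∨ τ ∈ toks (U' j)

def rest (c : Conf) : Conf := (c.1.tail, c.2)

theorem rest_psh (F : Frame) (c : Conf) : rest (psh F c) = c := rfl

theorem pr_rest : Primrec rest :=
  Primrec.pair (Primrec.list_tail.comp Primrec.fst) Primrec.snd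

/-- the tokens of the top frame -/
def top (c : Conf) : List Str := (c.1.head?.map (fun F => Frame.dn F ++ Frame.td F)).getD []

theorem top_psh (F : Frame) (c : Conf) : top (psh F c) = Frame.dn F ++ Frame.td F := rfl

theorem pr_top : Primrec top := by
  unfold top
  refine Primrec.option_getD.comp ?_ (Primrec.const [])
  refine Primrec.option_map (Primrec.list_head?.comp Primrec.fst) ?_
  exact Primrec.list_append.comp (pr_dn.comp Primrec.snd) (pr_td.comp Primrec.snd)

/-- expansion configurations -/
def isE (c : Conf) : Bool := decide (c.1.head?.map Frame.kd = some 1)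

theorem pr_isE : Primrec isE := by
  unfold isE
  have h : Primrec (fun c : Conf => c.1.head?.map Frame.kd) :=
    Primrec.option_map (Primrec.list_head?.comp Primrec.fst) (pr_kd.comp Primrec.snd)
  have h2 : PrimrecPred (fun c : Conf => c.1.head?.map Frame.kd = some 1) :=
    Primrec.eq.comp h (Primrec.const (some 1))
  exact h2.decide

theorem isE_psh (F : Frame) (c : Conf) : isE (psh F c) = true ↔ Frame.kd F = 1 := by
  unfold isE psh
  simp

theorem comp_find {p : ℕ → ℕ → Bool} (hp : Computable₂ p) (h : ∀ n, ∃ m, p n m = true) :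
    Computable (fun n => Nat.find (h n)) := by
  have h1 : Partrec (fun n : ℕ => Nat.rfind (fun m => Part.some (p n m))) :=
    Partrec.rfind hp.partrec₂
  refine h1.of_eq_tot (fun n => ?_)
  refine (Nat.mem_rfind (p := (fun m => Part.some (p n m) : ℕ →. Bool))).2 ⟨?_, ?_⟩
  · have := Nat.find_spec (h n)
    simp [this]
  · intro m hm
    have := Nat.find_min (h n) hm
    simp only [Bool.not_eq_true] at this
    simp [this]

/-! ### the diagonalisation levels -/

theorem ev_mono {s s' e m v : ℕ} (h : s ≤ s') (hv : ev s e m = some v) : ev s' e m = some v :=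
  Code.evaln_mono h hv

theorem ev_unique {s s' e m v v' : ℕ} (h : ev s e m = some v) (h' : ev s' e m = some v') :
    v = v' := by
  have h1 := ev_mono (le_max_left s s') h
  have h2 := ev_mono (le_max_right s s') h'
  rw [h1] at h2
  exact Option.some.inj h2

theorem N_step {e m : ℕ} {S : Str} {C c' : Conf}
    (h : CR pp (step (psh (0, e, m, 0, [S], []) C)) c') :
    (ev S.length e m = none ∧ ∃ S' C', c' = psh (0, e, m, 0, [S'], []) C' ∧ pp S S' ∧
      CR pp (step C) C') ∨
    (ev S.length e m = some 0 ∧ ∃ S', c' = ([], (2 * e + 1, S')) ∧ pp S S') ∨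
    (∃ v, ev S.length e m = some (v + 1) ∧ CR pp (step C) c') := by
  have h0 : step (psh (0, e, m, 0, [S], []) C) = (Option.casesOn (ev S.length e m)
      (psh (0, e, m, 0, [S], []) (step C))
      (fun v => if v = 0 then ([], (2 * e + 1, S)) else step C) : Conf) := rfl
  rw [h0] at h
  cases hv : ev S.length e m with
  | none =>
    left
    rw [hv] at h
    obtain ⟨F', C', rfl, h1, h2⟩ := CR_psh h
    refine ⟨rfl, ?_⟩
    obtain ⟨a, b, c, d, D, E⟩ := F'
    obtain ⟨k1, k2, k3, k4, k5, k6⟩ := h1
    change a = 0 at k1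
    change b = e at k2
    change c = m at k3
    change d = 0 at k4
    change List.Forall₂ pp [S] D at k5
    change List.Forall₂ pp [] E at k6
    cases k6
    cases k5 with
    | cons k7 k8 =>
      cases k8
      subst k1 k2 k3 k4
      exact ⟨_, C', rfl, k7, h2⟩
  | some v =>
    rw [hv] at h
    change CR pp (if v = 0 then ([], (2 * e + 1, S)) else step C) c' at h
    by_cases hv0 : v = 0
    · rw [if_pos hv0] at h
      right; left
      obtain ⟨σ, rfl, h1⟩ := CR_nil h
      exact ⟨by rw [hv0], σ, rfl, h1⟩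
    · rw [if_neg hv0] at h
      right; right
      exact ⟨v - 1, by congr 1; omega, h⟩

theorem getElem?_of_prefix {σ τ : Str} {b : Bool} (h : σ ++ [b] <+: τ) :
    τ[σ.length]? = some b := by
  obtain ⟨ρ, rfl⟩ := h
  rw [List.append_assoc, List.getElem?_append_right le_rfl]
  simp

theorem dec_N {e : ℕ} {U : ℕ → Conf} (h : Run (2 * e) U) :
    ∃ U' t P, Run (2 * e + 1) U' ∧ Dec U U' t P ∧
      ∃ m b, (∀ τ ∈ toks (U' 0), τ[m]? = some b) ∧ ∀ s, ev s e m ≠ some b.toNat := by
  obtain ⟨σ, hσ⟩ := h.start
  set m := σ.length with hm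
  -- the first step
  have h1 : ∃ S σ', U 1 = psh (0, e, m, 0, [S], []) ([], (2 * e + 1, σ')) ∧
      σ ++ [true] <+: S ∧ σ ++ [false] <+: σ' := by
    have h2 := h.next 0
    have h3 : step (U 0) = psh (0, e, m, 0, [σ ++ [true]], []) ([], (2 * e + 1, σ ++ [false])) := by
      rw [hσ]
      show stepLeaf (2 * e, σ) = _
      unfold stepLeaf
      rw [if_pos (show 2 * e % 2 = 0 by omega)]
      show (([(0, 2 * e / 2, σ.length, 0, [σ ++ [true]], [])], (2 * e + 1, σ ++ [false])) : Conf) = _
      rw [show 2 * e / 2 = e by omega]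
      rfl
    rw [h3] at h2
    obtain ⟨F', C', h4, h5, h6⟩ := CR_psh h2
    obtain ⟨σ', rfl, h7⟩ := CR_nil h6
    obtain ⟨a, b, c, d, D, E⟩ := F'
    obtain ⟨k1, k2, k3, k4, k5, k6⟩ := h5
    change a = 0 at k1
    change b = e at k2
    change c = m at k3
    change d = 0 at k4
    change List.Forall₂ pp [σ ++ [true]] D at k5
    change List.Forall₂ pp [] E at k6
    cases k6
    cases k5 with
    | cons k7 k8 =>
      cases k8
      subst k1 k2 k3 k4
      exact ⟨_, σ', h4, k7.1, h7.1⟩
  obtain ⟨S1, σ1, hU1, hS1, hσ1⟩ := h1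
  have key : ∀ N, (∀ n, n < N → ∀ S C, U (n + 1) = psh (0, e, m, 0, [S], []) C →
      ev S.length e m = none) → ∀ n, n ≤ N → ∃ S C, U (n + 1) = psh (0, e, m, 0, [S], []) C ∧
      σ ++ [true] <+: S ∧ n ≤ S.length ∧ (n < N → ∃ S' C', U (n + 2) = psh (0, e, m, 0, [S'], []) C' ∧
        pp S S' ∧ CR pp (step C) C') := by
    intro N hN n
    induction n with
    | zero =>
      intro _
      refine ⟨S1, _, hU1, hS1, by omega, fun hn => ?_⟩
      have h2 := h.next 1
      rw [hU1] at h2
      rcases N_step h2 with ⟨-, h3⟩ | ⟨h3, -⟩ | ⟨v, h3, -⟩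
      · exact h3
      · rw [hN 0 hn _ _ hU1] at h3; exact absurd h3 (by simp)
      · rw [hN 0 hn _ _ hU1] at h3; exact absurd h3 (by simp)
    | succ n ih =>
      intro hn
      obtain ⟨S, C, h2, h3, h4, h5⟩ := ih (by omega)
      obtain ⟨S', C', h6, h7, h8⟩ := h5 (by omega)
      refine ⟨S', C', h6, h3.trans h7.1, by have := h7.2; omega, fun hn' => ?_⟩
      have h9 := h.next (n + 2)
      rw [h6] at h9
      rcases N_step h9 with ⟨-, h3⟩ | ⟨h3, -⟩ | ⟨v, h3, -⟩
      · exact h3
      · rw [hN (n + 1) hn' _ _ h6] at h3; exact absurd h3 (by simp)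
      · rw [hN (n + 1) hn' _ _ h6] at h3; exact absurd h3 (by simp)
  have htok : ∀ (S : Str) (C : Conf), toks (psh (0, e, m, 0, [S], []) C) = S :: toks C := by
    intro S C
    rw [toks_psh]
    show [S] ++ toks C ++ [] = _
    simp
  by_cases hall : ∀ n, ∀ S C, U (n + 1) = psh (0, e, m, 0, [S], []) C → ev S.length e m = none
  · -- the side token waits for ever
    have key' : ∀ n, ∃ S C, U (n + 1) = psh (0, e, m, 0, [S], []) C ∧ n ≤ S.length ∧
        ∃ S' C', U (n + 2) = psh (0, e, m, 0, [S'], []) C' ∧ pp S S' ∧ CR pp (step C) C' := by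
      intro n
      obtain ⟨S, C, h2, h3, h4, h5⟩ := key (n + 1) (fun n _ => hall n) n (by omega)
      exact ⟨S, C, h2, h4, h5 (by omega)⟩
    refine ⟨fun j => rest (U (j + 1)), fun j => j + 1, fun j => top (U (j + 1)), ⟨?_, ?_, ?_⟩,
      ⟨?_, ?_, ?_, ?_, ?_⟩, m, false, ?_, ?_⟩
    · exact ⟨σ1, by show rest (U 1) = _; rw [hU1]; rfl⟩
    · intro n
      obtain ⟨S, C, h2, h3, S', C', h4, h5, h6⟩ := key' n
      show CR pp (step (rest (U (n + 1)))) (rest (U (n + 2)))
      rw [h2, h4]
      exact h6
    · exact pr_rest.to_comp.comp (h.comp.comp Computable.succ)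
    · intro j; show j < j + 1; omega
    · intro j
      obtain ⟨S, C, h2, h3, S', C', h4, h5, h6⟩ := key' j
      show toks (rest (U (j + 1))) ⊆ toks (U (j + 1))
      rw [h2, htok, rest_psh]
      exact fun a ha => List.mem_cons_of_mem _ ha
    · exact pr_top.to_comp.comp (h.comp.comp Computable.succ)
    · intro j
      obtain ⟨S, C, h2, h3, S', C', h4, h5, h6⟩ := key' j
      show List.Forall₂ _ (top (U (j + 1))) (top (U (j + 2)))
      rw [h2, h4]
      exact List.Forall₂.cons h5.1 List.Forall₂.nil
    · refine ⟨0, fun j _ τ hτ => ?_⟩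
      obtain ⟨S, C, h2, h3, S', C', h4, h5, h6⟩ := key' j
      show τ ∈ top (U (j + 1)) ∨ τ ∈ toks (rest (U (j + 1)))
      change τ ∈ toks (U (j + 1)) at hτ
      rw [h2, htok] at hτ
      rw [h2, rest_psh]
      rcases List.mem_cons.1 hτ with h7 | h7
      · left
        rw [h7]
        show S ∈ [S] ++ []
        simp
      · right; exact h7
    · intro τ hτ
      change τ ∈ toks (rest (U 1)) at hτ
      rw [hU1, rest_psh, toks_nil, List.mem_singleton] at hτ
      rw [hτ]
      exact getElem?_of_prefix hσ1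
    · intro s hs
      obtain ⟨S, C, h2, h3, -⟩ := key' s
      have h4 := ev_mono h3 hs
      rw [hall s S C h2] at h4
      exact absurd h4 (by simp)
  · -- the computation halts
    have hex : ∃ n, ∃ S C, U (n + 1) = psh (0, e, m, 0, [S], []) C ∧ ev S.length e m ≠ none := by
      by_contra hc
      push Not at hc
      exact hall hc
    classical
    let N := Nat.find hex
    obtain ⟨S, C, hN1, hN2⟩ := Nat.find_spec hex
    have hmin : ∀ n, n < N → ∀ S C, U (n + 1) = psh (0, e, m, 0, [S], []) C →
        ev S.length e m = none := by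
      intro n hn S C h2
      have h3 := Nat.find_min hex hn
      push Not at h3
      exact h3 S C h2
    obtain ⟨S', C', h2, h3, h4, -⟩ := key N hmin N le_rfl
    have hN1' : U (N + 1) = psh (0, e, m, 0, [S], []) C := hN1
    have h5 : S' = S ∧ C' = C := by
      rw [h2] at hN1'
      have h6 := congrArg rest hN1'
      have h7 := congrArg top hN1'
      rw [rest_psh, rest_psh] at h6
      have h8 : [S'] = [S] := h7
      exact ⟨by simpa using h8, h6⟩
    obtain ⟨rfl, rfl⟩ := h5
    have h6 := h.next (N + 1)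
    rw [h2] at h6
    rcases N_step h6 with ⟨h7, -⟩ | ⟨h7, S2, h8, h9⟩ | ⟨v, h7, h8⟩
    · exact absurd h7 hN2
    · -- move to the side token
      refine ⟨fun j => U (N + 2 + j), fun j => N + 2 + j, fun _ => [], ⟨⟨S2, h8⟩, ?_, ?_⟩,
        ⟨?_, ?_, ?_, ?_, ?_⟩, m, true, ?_, ?_⟩
      · intro n; exact h.next (N + 2 + n)
      · exact h.comp.comp (Primrec.nat_add.comp (Primrec.const (N + 2)) Primrec.id).to_comp
      · intro j; show j < N + 2 + j; omega
      · intro j; exact List.Subset.refl _
      · exact Computable.const []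
      · intro j; exact List.Forall₂.nil
      · exact ⟨0, fun j _ τ hτ => Or.inr hτ⟩
      · intro τ hτ
        change τ ∈ toks (U (N + 2)) at hτ
        rw [h8, toks_nil, List.mem_singleton] at hτ
        rw [hτ]
        exact getElem?_of_prefix (h3.trans h9.1)
      · intro s hs
        have := ev_unique h7 hs
        exact absurd this (by decide)
    · -- drop the side token
      have hpre : ∀ n, n < N → ∃ S C S' C', U (n + 1) = psh (0, e, m, 0, [S], []) C ∧
          U (n + 2) = psh (0, e, m, 0, [S'], []) C' ∧ CR pp (step C) C' := by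
        intro n hn
        obtain ⟨S, C, k2, k3, k4, k5⟩ := key N hmin n hn.le
        obtain ⟨S', C', k6, k7, k8⟩ := k5 hn
        exact ⟨S, C, S', C', k2, k6, k8⟩
      refine ⟨fun j => if j ≤ N then rest (U (j + 1)) else U (j + 1), fun j => j + 1,
        fun _ => [], ⟨?_, ?_, ?_⟩, ⟨?_, ?_, ?_, ?_, ?_⟩, m, false, ?_, ?_⟩
      · refine ⟨σ1, ?_⟩
        show (if 0 ≤ N then rest (U 1) else U 1) = _
        rw [if_pos (Nat.zero_le _), hU1]
        rfl
      · intro n
        show CR pp (step (if n ≤ N then rest (U (n + 1)) else U (n + 1)))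
          (if n + 1 ≤ N then rest (U (n + 2)) else U (n + 2))
        rcases lt_trichotomy n N with hn | hn | hn
        · rw [if_pos hn.le, if_pos (show n + 1 ≤ N by omega)]
          obtain ⟨S, C, S', C', k1, k2, k3⟩ := hpre n hn
          rw [k1, k2]
          exact k3
        · rw [if_pos hn.le, if_neg (show ¬ n + 1 ≤ N by omega)]
          rw [hn, h2]
          exact h8
        · rw [if_neg (show ¬ n ≤ N by omega), if_neg (show ¬ n + 1 ≤ N by omega)]
          exact h.next (n + 1)
      · have hp : Primrec (fun z : ℕ × Conf => if z.1 ≤ N then rest z.2 else z.2) := by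
          refine Primrec.ite ?_ (pr_rest.comp Primrec.snd) Primrec.snd
          exact Primrec.nat_le.comp Primrec.fst (Primrec.const N)
        exact hp.to_comp.comp (Computable.pair Computable.id (h.comp.comp Computable.succ))
      · intro j; show j < j + 1; omega
      · intro j
        show toks (if j ≤ N then rest (U (j + 1)) else U (j + 1)) ⊆ toks (U (j + 1))
        by_cases hj : j ≤ N
        · rw [if_pos hj]
          obtain ⟨S, C, k2, -⟩ := key N hmin j hj
          rw [k2, htok, rest_psh]
          exact fun a ha => List.mem_cons_of_mem _ ha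
        · rw [if_neg hj]
          exact List.Subset.refl _
      · exact Computable.const []
      · intro j; exact List.Forall₂.nil
      · refine ⟨N + 1, fun j hj τ hτ => Or.inr ?_⟩
        show τ ∈ toks (if j ≤ N then rest (U (j + 1)) else U (j + 1))
        rw [if_neg (show ¬ j ≤ N by omega)]
        exact hτ
      · intro τ hτ
        change τ ∈ toks (if 0 ≤ N then rest (U 1) else U 1) at hτ
        rw [if_pos (Nat.zero_le _), hU1, rest_psh, toks_nil, List.mem_singleton] at hτ
        rw [hτ]
        exact getElem?_of_prefix hσ1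
      · intro s hs
        have := ev_unique h7 hs
        exact absurd this (by simp)

end Pool.Agent.W939.Ncr
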