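import Pool.Agent.W939.Ncr.Run

set_option autoImplicit false

namespace Pool.Agent.W939.Ncr

open Encodable
open Nat.Partrec (Code)
open Pool.Agent.H84R6 (GG primrec_GG GG_mon)

/-- what is known between two expansions -/
def WI (e k : ℕ) (A : Conf) (D E : List Str) (C : Conf) : Prop :=
  ∃ T1 t T2, toks A = T1 ++ t :: T2 ∧ List.Forall₂ (· <+: ·) T1 D ∧ List.Forall₂ (· <+: ·) T2 E ∧
    (∀ τ ∈ toks C, t <+: τ) ∧ ∀ τ ∈ D, (GG (nn τ) e k).isSome

theorem nn_mono {σ τ : Str} (h : σ <+: τ) : nn σ <+: nn τ := by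
  obtain ⟨ρ, rfl⟩ := h
  unfold nn
  rw [List.map_append]
  exact List.prefix_append _ _

theorem some_mono {σ τ : Str} {e k : ℕ} (h : σ <+: τ) (hs : (GG (nn σ) e k).isSome) :
    (GG (nn τ) e k).isSome := by
  obtain ⟨v, hv⟩ := Option.isSome_iff_exists.1 hs
  rw [GG_mon (nn_mono h) hv]
  rfl

theorem wk {a b c : Str} (h : a <+: b) (h' : pp b c) : a <+: c := h.trans h'.1

theorem wp {a b c : Str} (h : a <+: b) (h' : pp b c) : pp a c :=
  ⟨h.trans h'.1, lt_of_le_of_lt h.length_le h'.2⟩

theorem fcomp {a b c : List Str} (h : List.Forall₂ (· <+: ·) a b) (h' : List.Forall₂ pp b c) :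
    List.Forall₂ (· <+: ·) a c :=
  forall₂_comp (r := (· <+: ·)) (r' := pp) (r'' := (· <+: ·)) (fun _ _ _ h h' => wk h h') h h'

theorem ccomp {a b c : Conf} (h : CR (· <+: ·) a b) (h' : CR pp b c) : CR pp a c :=
  CR_comp (r := (· <+: ·)) (r' := pp) (r'' := pp) (fun _ _ _ h h' => wp h h') h h'

theorem E_step {e k : ℕ} {C c' : Conf} (h : CR pp (step (psh (1, e, k, 0, [], []) C)) c') :
    ∃ D E σ, c' = psh (2, e, k, encode (step C), D, E) ([], (2 * e + 2, σ)) ∧
      WI e k (step C) D E ([], (2 * e + 2, σ)) := by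
  have h0 : step (psh (1, e, k, 0, [], []) C) = psh (2, e, k, encode (step C), [],
      (toks (step C)).tail) ([], (2 * e + 2, hd (toks (step C)))) := rfl
  rw [h0] at h
  obtain ⟨F', C', rfl, h1, h2⟩ := CR_psh h
  obtain ⟨σ, rfl, h3⟩ := CR_nil h2
  obtain ⟨a, b, c, d, D, E⟩ := F'
  obtain ⟨k1, k2, k3, k4, k5, k6⟩ := h1
  change a = 2 at k1
  change b = e at k2
  change c = k at k3
  change d = encode (step C) at k4
  change List.Forall₂ pp [] D at k5
  change List.Forall₂ pp (toks (step C)).tail E at k6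
  cases k5
  subst k1 k2 k3 k4
  refine ⟨[], E, σ, rfl, [], hd (toks (step C)), (toks (step C)).tail, ?_, List.Forall₂.nil,
    forall₂_mono (fun _ _ h => h.1) k6, ?_, ?_⟩
  · rw [List.nil_append, hd_tail (toks_ne _)]
  · intro τ hτ
    rw [toks_nil, List.mem_singleton] at hτ
    rw [hτ]
    exact h3.1
  · intro τ hτ
    exact absurd hτ (by simp)

theorem forall₂_append_one {T1 D : List Str} {t b : Str} (h : List.Forall₂ (· <+: ·) T1 D)
    (h' : t <+: b) : List.Forall₂ (· <+: ·) (T1 ++ [t]) (D ++ [b]) :=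
  List.rel_append h (List.Forall₂.cons h' List.Forall₂.nil)

theorem W_step {e k : ℕ} {A : Conf} {D E : List Str} {C c' : Conf} (hI : WI e k A D E C)
    (h : CR pp (step (psh (2, e, k, encode A, D, E) C)) c') :
    (srch (toks C) e k = none ∧ ∃ D' E' C', c' = psh (2, e, k, encode A, D', E') C' ∧
      WI e k A D' E' C' ∧ List.Forall₂ pp D D' ∧ List.Forall₂ pp E E' ∧ CR pp (step C) C') ∨
    (∃ D' E' σ, c' = psh (2, e, k, encode A, D', E') ([], (2 * e + 2, σ)) ∧
      WI e k A D' E' ([], (2 * e + 2, σ)) ∧ E'.length < E.length) ∨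
    (∃ A', c' = psh (1, e, k + 1, 0, [], []) A' ∧ CR pp A A' ∧
      ∀ τ ∈ toks A', (GG (nn τ) e k).isSome) := by
  have h0 : step (psh (2, e, k, encode A, D, E) C) = (Option.casesOn (srch (toks C) e k)
      (psh (2, e, k, encode A, D, E) (step C))
      (fun b => stD (2, e, k, encode A, D, E) b) : Conf) := rfl
  rw [h0] at h
  obtain ⟨T1, t, T2, i1, i2, i3, i4, i5⟩ := hI
  cases hv : srch (toks C) e k with
  | none =>
    left
    rw [hv] at h
    refine ⟨rfl, ?_⟩
    obtain ⟨F', C', rfl, h1, h2⟩ := CR_psh h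
    obtain ⟨a, b, c, d, D', E'⟩ := F'
    obtain ⟨k1, k2, k3, k4, k5, k6⟩ := h1
    change a = 2 at k1
    change b = e at k2
    change c = k at k3
    change d = encode A at k4
    change List.Forall₂ pp D D' at k5
    change List.Forall₂ pp E E' at k6
    subst k1 k2 k3 k4
    refine ⟨D', E', C', rfl, ⟨T1, t, T2, i1, ?_, ?_, ?_, ?_⟩, k5, k6, h2⟩
    · exact fcomp i2 k5
    · exact fcomp i3 k6
    · intro τ hτ
      obtain ⟨σ, h3, h4⟩ := ((ref_step C).trans (ref_of_CR h2)) τ hτ
      exact (i4 σ h3).trans h4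
    · intro τ hτ
      obtain ⟨σ, h3, h4⟩ := mem_of_forall₂ k5 hτ
      exact some_mono h4.1 (i5 σ h3)
  | some b =>
    right
    rw [hv] at h
    change CR pp (stD (2, e, k, encode A, D, E) b) c' at h
    obtain ⟨h3, h4⟩ := srch_some hv
    have h5 := i4 b h3
    cases E with
    | nil =>
      right
      cases i3
      have h6 : stD (2, e, k, encode A, D, []) b =
          psh (1, e, k + 1, 0, [], []) (setC (dec (encode A)) (D ++ [b])) := rfl
      have h7 : dec (encode A) = A := by
        unfold dec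
        rw [encodek]
        rfl
      rw [h6, h7] at h
      obtain ⟨h8, h9⟩ := setC_CR (c := A) (T := D ++ [b]) (r := (· <+: ·))
        (by rw [i1]; exact forall₂_append_one i2 h5)
      obtain ⟨F', C', rfl, h1, h2⟩ := CR_psh h
      obtain ⟨a', b', c', d', D', E'⟩ := F'
      obtain ⟨k1, k2, k3, k4, k5, k6⟩ := h1
      change a' = 1 at k1
      change b' = e at k2
      change c' = k + 1 at k3
      change d' = 0 at k4
      change List.Forall₂ pp [] D' at k5
      change List.Forall₂ pp [] E' at k6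
      cases k5
      cases k6
      subst k1 k2 k3 k4
      refine ⟨C', rfl, ccomp h8 h2, ?_⟩
      intro τ hτ
      obtain ⟨σ, h10, h11⟩ := mem_of_forall₂ (CR_toks h2) hτ
      rw [h9] at h10
      rcases List.mem_append.1 h10 with h12 | h12
      · exact some_mono h11.1 (i5 σ h12)
      · rw [List.mem_singleton] at h12
        rw [h12] at h11
        exact some_mono h11.1 h4
    | cons t1 E1 =>
      left
      cases i3 with
      | @cons s1 _ S1 _ i6 i7 =>
      have h6 : stD (2, e, k, encode A, D, t1 :: E1) b =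
          psh (2, e, k, encode A, D ++ [b], E1) ([], (2 * e + 2, t1)) := rfl
      rw [h6] at h
      obtain ⟨F', C', rfl, h1, h2⟩ := CR_psh h
      obtain ⟨σ, rfl, h7⟩ := CR_nil h2
      obtain ⟨a', b', c', d', D', E'⟩ := F'
      obtain ⟨k1, k2, k3, k4, k5, k6⟩ := h1
      change a' = 2 at k1
      change b' = e at k2
      change c' = k at k3
      change d' = encode A at k4
      change List.Forall₂ pp (D ++ [b]) D' at k5
      change List.Forall₂ pp E1 E' at k6
      subst k1 k2 k3 k4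
      refine ⟨D', E', σ, rfl, ⟨T1 ++ [t], s1, S1, ?_, ?_, ?_, ?_, ?_⟩, ?_⟩
      · rw [i1]; simp
      · exact fcomp (forall₂_append_one i2 h5) k5
      · exact fcomp i7 k6
      · intro τ hτ
        rw [toks_nil, List.mem_singleton] at hτ
        rw [hτ]
        exact i6.trans h7.1
      · intro τ hτ
        obtain ⟨σ', h10, h11⟩ := mem_of_forall₂ k5 hτ
        rcases List.mem_append.1 h10 with h12 | h12
        · exact some_mono h11.1 (i5 σ' h12)
        · rw [List.mem_singleton] at h12
          rw [h12] at h11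
          exact some_mono h11.1 h4
      · rw [← k6.length_eq]
        simp

theorem E_isE (e k : ℕ) (C : Conf) : isE (psh (1, e, k, 0, [], []) C) = true :=
  (isE_psh _ _).2 rfl

theorem W_isE (e k a : ℕ) (D E : List Str) (C : Conf) :
    isE (psh (2, e, k, a, D, E) C) ≠ true := by
  rw [Ne, isE_psh]
  show ¬ (2 = 1)
  omega

/-- between two expansions -/
theorem between {e : ℕ} {U : ℕ → Conf} (h : ∀ n, CR pp (step (U n)) (U (n + 1)))
    {n k : ℕ} {C : Conf} (hn : U n = psh (1, e, k, 0, [], []) C) (i : ℕ)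
    (hi : ∀ i' < i, isE (U (n + 1 + i')) ≠ true) :
    (∃ D E C', U (n + 1 + i) = psh (2, e, k, encode (step C), D, E) C' ∧
      WI e k (step C) D E C') ∨
    (0 < i ∧ ∃ A', U (n + 1 + i) = psh (1, e, k + 1, 0, [], []) A' ∧ CR pp (step C) A' ∧
      ∀ τ ∈ toks A', (GG (nn τ) e k).isSome) := by
  induction i with
  | zero =>
    left
    have h1 := h n
    rw [hn] at h1
    obtain ⟨D, E, σ, h2, h3⟩ := E_step h1
    exact ⟨D, E, _, h2, h3⟩
  | succ i ih =>
    rcases ih (fun i' hi' => hi i' (by omega)) with ⟨D, E, C', h1, h2⟩ | ⟨-, A', h1, -⟩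
    · have h3 := h (n + 1 + i)
      rw [h1] at h3
      rcases W_step h2 h3 with ⟨-, D', E', C'', h4, h5, -⟩ | ⟨D', E', σ, h4, h5, -⟩ | ⟨A', h4, h5, h6⟩
      · left; exact ⟨D', E', C'', h4, h5⟩
      · left; exact ⟨D', E', _, h4, h5⟩
      · right; exact ⟨by omega, A', h4, h5, h6⟩
    · exfalso
      have := hi i (by omega)
      rw [h1] at this
      exact this (E_isE _ _ _)

theorem nextE {e : ℕ} {U : ℕ → Conf} (h : ∀ n, CR pp (step (U n)) (U (n + 1)))
    {n k : ℕ} {C : Conf} (hn : U n = psh (1, e, k, 0, [], []) C) {n' : ℕ} (hlt : n < n')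
    (hE : isE (U n') = true) (hm : ∀ m, n < m → m < n' → isE (U m) ≠ true) :
    ∃ A', U n' = psh (1, e, k + 1, 0, [], []) A' ∧ CR pp (step C) A' ∧
      ∀ τ ∈ toks A', (GG (nn τ) e k).isSome := by
  obtain ⟨i, rfl⟩ : ∃ i, n' = n + 1 + i := ⟨n' - (n + 1), by omega⟩
  rcases between h hn i (fun i' hi' => hm _ (by omega) (by omega)) with ⟨D, E, C', h1, -⟩ | ⟨-, h1⟩
  · rw [h1] at hE
    exact absurd hE (W_isE _ _ _ _ _ _)
  · exact h1

/-- the wait that lasts for ever -/
theorem stuck {e k : ℕ} {U : ℕ → Conf} (h : ∀ n, CR pp (step (U n)) (U (n + 1))) {A : Conf}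
    (q : ℕ) : ∀ (n : ℕ) (D E : List Str) (σ : Str),
    U n = psh (2, e, k, encode A, D, E) ([], (2 * e + 2, σ)) →
    WI e k A D E ([], (2 * e + 2, σ)) → E.length = q → (∀ n', n ≤ n' → isE (U n') ≠ true) →
    ∃ n0, n ≤ n0 ∧ (∃ D E σ, U n0 = psh (2, e, k, encode A, D, E) ([], (2 * e + 2, σ))) ∧
      ∀ j, ∃ D E C, U (n0 + j) = psh (2, e, k, encode A, D, E) C ∧ srch (toks C) e k = none ∧
        ∃ D' E' C', U (n0 + j + 1) = psh (2, e, k, encode A, D', E') C' ∧ List.Forall₂ pp D D' ∧
          List.Forall₂ pp E E' ∧ CR pp (step C) C' := by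
  induction q using Nat.strong_induction_on with
  | _ q ih =>
  intro n D E σ hn hI hq hE
  have key : ∀ N, (∀ j, j < N → ∀ D E C, U (n + j) = psh (2, e, k, encode A, D, E) C →
      srch (toks C) e k = none) → ∀ j, j ≤ N → ∃ D' E' C', U (n + j) =
      psh (2, e, k, encode A, D', E') C' ∧ WI e k A D' E' C' ∧ E'.length = q ∧
      (j < N → ∃ D2 E2 C2, U (n + j + 1) = psh (2, e, k, encode A, D2, E2) C2 ∧
        WI e k A D2 E2 C2 ∧ List.Forall₂ pp D' D2 ∧ List.Forall₂ pp E' E2 ∧
          CR pp (step C') C2) := by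
    intro N hN j
    have one : ∀ j D' E' C', j < N → U (n + j) = psh (2, e, k, encode A, D', E') C' →
        WI e k A D' E' C' → ∃ D2 E2 C2, U (n + j + 1) = psh (2, e, k, encode A, D2, E2) C2 ∧
        WI e k A D2 E2 C2 ∧ List.Forall₂ pp D' D2 ∧ List.Forall₂ pp E' E2 ∧
          CR pp (step C') C2 := by
      intro j D' E' C' hj h1 h2
      have h3 := h (n + j)
      have hs := hN j hj D' E' C' h1
      have h0 : step (psh (2, e, k, encode A, D', E') C') = psh (2, e, k, encode A, D', E')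
          (step C') := by
        show (Option.casesOn (srch (toks C') e k)
          (psh (2, e, k, encode A, D', E') (step C'))
          (fun b => stD (2, e, k, encode A, D', E') b) : Conf) = _
        rw [hs]
      rw [h1] at h3
      rcases W_step h2 h3 with ⟨-, D2, E2, C2, h4, h5, h6, h7, h8⟩ | ⟨D2, E2, σ', h4, h5, h6⟩ |
        ⟨A', h4, h5, h6⟩
      · exact ⟨D2, E2, C2, h4, h5, h6, h7, h8⟩
      · exfalso
        rw [h0, h4] at h3
        obtain ⟨F', C'', h7, h8, h9⟩ := CR_psh h3
        have h10 : psh (2, e, k, encode A, D2, E2) ([], (2 * e + 2, σ')) = psh F' C'' := h7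
        have h11 : F' = (2, e, k, encode A, D2, E2) := by
          have := congrArg (fun c : Conf => c.1.head?) h10
          simp only [psh, List.head?_cons, Option.some.injEq] at this
          exact this.symm
        rw [h11] at h8
        have h12 : List.Forall₂ pp E' E2 := h8.2.2.2.2.2
        have := h12.length_eq
        omega
      · exfalso
        have := hE (n + j + 1) (by omega)
        rw [h4] at this
        exact this (E_isE _ _ _)
    induction j with
    | zero =>
      intro _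
      exact ⟨D, E, _, hn, hI, hq, fun hj => one 0 D E _ hj hn hI⟩
    | succ j ihj =>
      intro hj
      obtain ⟨D', E', C', h1, h2, h3, h4⟩ := ihj (by omega)
      obtain ⟨D2, E2, C2, h5, h6, h7, h8, h9⟩ := h4 (by omega)
      exact ⟨D2, E2, C2, h5, h6, by rw [← h8.length_eq, h3], fun hj' => one (j + 1) D2 E2 C2 hj' h5 h6⟩
  by_cases hall : ∀ j, ∀ D E C, U (n + j) = psh (2, e, k, encode A, D, E) C →
      srch (toks C) e k = none
  · refine ⟨n, le_rfl, ⟨D, E, σ, hn⟩, fun j => ?_⟩
    obtain ⟨D', E', C', h1, h2, h3, h4⟩ := key (j + 1) (fun j _ => hall j) j (by omega)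
    obtain ⟨D2, E2, C2, h5, h6, h7, h8, h9⟩ := h4 (by omega)
    exact ⟨D', E', C', h1, hall j D' E' C' h1, D2, E2, C2, h5, h7, h8, h9⟩
  · have hex : ∃ j, ∃ D E C, U (n + j) = psh (2, e, k, encode A, D, E) C ∧
        srch (toks C) e k ≠ none := by
      by_contra hc
      push Not at hc
      exact hall hc
    classical
    obtain ⟨D1, E1, C1, hN1, hN2⟩ := Nat.find_spec hex
    have hmin : ∀ j, j < Nat.find hex → ∀ D E C, U (n + j) = psh (2, e, k, encode A, D, E) C →
        srch (toks C) e k = none := by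
      intro j hj D E C h2
      have h3 := Nat.find_min hex hj
      push Not at h3
      exact h3 D E C h2
    obtain ⟨D', E', C', h1, h2, h3, -⟩ := key _ hmin _ le_rfl
    have h4 := h (n + Nat.find hex)
    have h5 : C' = C1 := by
      have := congrArg rest (h1.symm.trans hN1)
      rwa [rest_psh, rest_psh] at this
    rw [h1] at h4
    rcases W_step h2 h4 with ⟨h6, -⟩ | ⟨D2, E2, σ', h6, h7, h8⟩ | ⟨A', h6, -⟩
    · rw [h5] at h6; exact absurd h6 hN2
    · obtain ⟨n0, h9, h10⟩ := ih E2.length (by omega) (n + Nat.find hex + 1) D2 E2 σ' h6 h7 rfl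
        (fun n' hn' => hE n' (by omega))
      exact ⟨n0, by omega, h10⟩
    · exfalso
      have := hE (n + Nat.find hex + 1) (by omega)
      rw [h6] at this
      exact this (E_isE _ _ _)

theorem len_forall₂_pp {T T' : List Str} (h : List.Forall₂ pp T T') :
    List.Forall₂ (· <+: ·) T T' := forall₂_mono (fun _ _ h => h.1) h

theorem exists_next {U : ℕ → Conf} (hc : Computable U)
    (hinf : ∀ N, ∃ n, N < n ∧ isE (U n) = true) : ∃ nx : ℕ → ℕ,
    (∀ N, N < nx N ∧ isE (U (nx N)) = true ∧ ∀ m, N < m → m < nx N → isE (U m) ≠ true) ∧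
    Computable nx := by
  have hinf' : ∀ N, ∃ n, (decide (N < n) && isE (U n)) = true := by
    intro N
    obtain ⟨n, h2, h3⟩ := hinf N
    exact ⟨n, by simp [h2, h3]⟩
  refine ⟨fun N => Nat.find (hinf' N), fun N => ?_, ?_⟩
  · have h2 := Nat.find_spec (hinf' N)
    rw [Bool.and_eq_true, decide_eq_true_eq] at h2
    refine ⟨h2.1, h2.2, fun m hm hm' h3 => ?_⟩
    apply Nat.find_min (hinf' N) hm'
    rw [Bool.and_eq_true, decide_eq_true_eq]
    exact ⟨hm, h3⟩
  · apply comp_find
    have h2 : Computable (fun z : ℕ × ℕ => decide (z.1 < z.2)) :=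
      (Primrec.nat_lt.comp Primrec.fst Primrec.snd).decide.to_comp
    have h3 : Computable (fun z : ℕ × ℕ => isE (U z.2)) :=
      pr_isE.to_comp.comp (hc.comp Computable.snd)
    exact (Primrec.and.to_comp.comp h2 h3 :)

theorem dec_R {e : ℕ} {U : ℕ → Conf} (h : Run (2 * e + 1) U) :
    ∃ U' t P, Run (2 * e + 2) U' ∧ Dec U U' t P ∧
      ((∃ k, ∀ j, ∀ τ ∈ toks (U' j), GG (nn τ) e k = none) ∨
        (∀ j, ∀ τ ∈ toks (U' j), ∀ i < j, (GG (nn τ) e i).isSome)) := by
  obtain ⟨σ, hσ⟩ := h.start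
  -- the first step
  have h1 : ∃ σ', U 1 = psh (1, e, 0, 0, [], []) ([], (2 * e + 2, σ')) := by
    have h2 := h.next 0
    have h3 : step (U 0) = psh (1, e, 0, 0, [], []) ([], (2 * e + 2, σ)) := by
      rw [hσ]
      show stepLeaf (2 * e + 1, σ) = _
      unfold stepLeaf
      rw [if_neg (show ¬ (2 * e + 1) % 2 = 0 by omega)]
      show (([(1, (2 * e + 1) / 2, 0, 0, [], [])], (2 * e + 1 + 1, σ)) : Conf) = _
      rw [show (2 * e + 1) / 2 = e by omega]
      rfl
    rw [h3] at h2
    obtain ⟨F', C', h4, h5, h6⟩ := CR_psh h2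
    obtain ⟨σ', rfl, h7⟩ := CR_nil h6
    obtain ⟨a, b, c, d, D, E⟩ := F'
    obtain ⟨k1, k2, k3, k4, k5, k6⟩ := h5
    change a = 1 at k1
    change b = e at k2
    change c = 0 at k3
    change d = 0 at k4
    change List.Forall₂ pp [] D at k5
    change List.Forall₂ pp [] E at k6
    cases k5
    cases k6
    subst k1 k2 k3 k4
    exact ⟨σ', h4⟩
  obtain ⟨σ1, hU1⟩ := h1
  have tE : ∀ k C, toks (psh (1, e, k, 0, [], []) C) = toks C := by
    intro k C
    rw [toks_psh]
    show [] ++ toks C ++ [] = _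
    simp
  by_cases hinf : ∀ N, ∃ n, N < n ∧ isE (U n) = true
  · -- infinitely many expansions
    obtain ⟨nx, hnx, cnx⟩ := exists_next h.comp hinf
    obtain ⟨t, ht0, hts, ct⟩ : ∃ t : ℕ → ℕ, t 0 = 1 ∧ (∀ j, t (j + 1) = nx (t j)) ∧
        Computable t := by
      refine ⟨fun j => Nat.rec 1 (fun _ y => nx y) j, rfl, fun _ => rfl, ?_⟩
      refine Computable.nat_rec (f := fun j : ℕ => j) (g := fun _ => 1)
        (h := fun (_ : ℕ) (q : ℕ × ℕ) => nx q.2) Computable.id (Computable.const 1) ?_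
      exact cnx.comp (Computable.snd.comp Computable.snd)
    have inv : ∀ j, ∃ C, U (t j) = psh (1, e, j, 0, [], []) C := by
      intro j
      induction j with
      | zero => rw [ht0]; exact ⟨_, hU1⟩
      | succ j ih =>
        obtain ⟨C, hC⟩ := ih
        obtain ⟨h2, h3, h4⟩ := hnx (t j)
        obtain ⟨A', h5, -⟩ := nextE h.next hC h2 h3 h4
        rw [hts]
        exact ⟨A', h5⟩
    have inv2 : ∀ j, CR pp (step (rest (U (t j)))) (rest (U (t (j + 1)))) ∧
        ∀ τ ∈ toks (rest (U (t (j + 1)))), (GG (nn τ) e j).isSome := by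
      intro j
      obtain ⟨C, hC⟩ := inv j
      obtain ⟨h2, h3, h4⟩ := hnx (t j)
      obtain ⟨A', h5, h6, h7⟩ := nextE h.next hC h2 h3 h4
      rw [hts, h5, hC]
      exact ⟨h6, h7⟩
    have hR : Run (2 * e + 2) (fun j => rest (U (t j))) := by
      refine ⟨⟨σ1, ?_⟩, fun j => (inv2 j).1, ?_⟩
      · show rest (U (t 0)) = _
        rw [ht0, hU1]
        rfl
      · exact pr_rest.to_comp.comp (h.comp.comp ct)
    refine ⟨fun j => rest (U (t j)), t, fun _ => [], hR, ⟨?_, ?_, ?_, ?_, ?_⟩, Or.inr ?_⟩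
    · intro j
      induction j with
      | zero => rw [ht0]; omega
      | succ j ih => rw [hts]; have := (hnx (t j)).1; omega
    · intro j
      obtain ⟨C, hC⟩ := inv j
      show toks (rest (U (t j))) ⊆ toks (U (t j))
      rw [hC, tE, rest_psh]
      exact List.Subset.refl _
    · exact Computable.const []
    · intro j; exact List.Forall₂.nil
    · refine ⟨0, fun j _ τ hτ => Or.inr ?_⟩
      obtain ⟨C, hC⟩ := inv j
      show τ ∈ toks (rest (U (t j)))
      rw [hC, tE] at hτ
      rw [hC, rest_psh]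
      exact hτ
    · intro j τ hτ i hi
      obtain ⟨σ', h2, h3⟩ := (hR.ref (show i + 1 ≤ j by omega)) τ hτ
      exact some_mono h3 ((inv2 i).2 σ' h2)
  · -- finitely many expansions
    push Not at hinf
    obtain ⟨N, hN⟩ := hinf
    have hE1 : isE (U 1) = true := by rw [hU1]; exact E_isE _ _ _
    -- the last expansion
    have hlast : ∃ n, isE (U n) = true ∧ 1 ≤ n ∧ ∀ m, n < m → isE (U m) ≠ true := by
      classical
      have hN1 : 1 ≤ N := by
        by_contra hc
        exact hN 1 (by omega) hE1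
      let n := Nat.findGreatest (fun n => isE (U n) = true) N
      have h2 : 1 ≤ n := Nat.le_findGreatest hN1 hE1
      have h3 : isE (U n) = true := Nat.findGreatest_spec (P := fun n => isE (U n) = true) hN1 hE1
      refine ⟨n, h3, h2, fun m hm => ?_⟩
      by_cases hmN : m ≤ N
      · exact Nat.findGreatest_is_greatest hm hmN
      · exact hN m (by omega)
    obtain ⟨n, hn1, hn2, hn3⟩ := hlast
    -- it has the form of an expansion configuration
    have hform : ∀ n, 1 ≤ n → isE (U n) = true → ∃ k C, U n = psh (1, e, k, 0, [], []) C := by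
      intro n
      induction n using Nat.strong_induction_on with
      | _ n ih =>
        intro h2 h3
        rcases Nat.eq_or_lt_of_le h2 with h4 | h4
        · exact ⟨0, _, by rw [← h4]; exact hU1⟩
        · classical
          let n' := Nat.findGreatest (fun n => isE (U n) = true) (n - 1)
          have h5 : 1 ≤ n' := Nat.le_findGreatest (by omega) hE1
          have h6 : isE (U n') = true :=
            Nat.findGreatest_spec (P := fun n => isE (U n) = true) (show 1 ≤ n - 1 by omega) hE1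
          have h7 : n' ≤ n - 1 := Nat.findGreatest_le _
          obtain ⟨k, C, h8⟩ := ih n' (by omega) h5 h6
          obtain ⟨A', h9, -⟩ := nextE h.next h8 (show n' < n by omega) h3
            (fun m hm hm' => Nat.findGreatest_is_greatest hm (by omega))
          exact ⟨_, A', h9⟩
    obtain ⟨k, C, hC⟩ := hform n hn2 hn1
    have h2 := h.next n
    rw [hC] at h2
    obtain ⟨D, E, σ', h3, h4⟩ := E_step h2
    obtain ⟨n0, h5, ⟨D0, E0, σ0, h6⟩, h7⟩ := stuck h.next E.length (n + 1) D E σ' h3 h4 rfl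
      (fun n' hn' => hn3 n' (by omega))
    have hR : Run (2 * e + 2) (fun j => rest (U (n0 + j))) := by
      refine ⟨⟨σ0, ?_⟩, fun j => ?_, ?_⟩
      · show rest (U n0) = _
        rw [h6]
        rfl
      · obtain ⟨D1, E1, C1, k1, k2, D2, E2, C2, k3, k4, k5, k6⟩ := h7 j
        show CR pp (step (rest (U (n0 + j)))) (rest (U (n0 + j + 1)))
        rw [k1, k3]
        exact k6
      · exact pr_rest.to_comp.comp (h.comp.comp
          (Primrec.nat_add.comp (Primrec.const n0) Primrec.id).to_comp)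
    refine ⟨fun j => rest (U (n0 + j)), fun j => n0 + j, fun j => top (U (n0 + j)), hR,
      ⟨?_, ?_, ?_, ?_, ?_⟩, Or.inl ⟨k, ?_⟩⟩
    · intro j; show j < n0 + j; omega
    · intro j
      obtain ⟨D1, E1, C1, k1, -⟩ := h7 j
      show toks (rest (U (n0 + j))) ⊆ toks (U (n0 + j))
      rw [k1, rest_psh, toks_psh]
      intro a ha
      simp [ha]
    · exact pr_top.to_comp.comp (h.comp.comp
          (Primrec.nat_add.comp (Primrec.const n0) Primrec.id).to_comp)
    · intro j
      obtain ⟨D1, E1, C1, k1, k2, D2, E2, C2, k3, k4, k5, k6⟩ := h7 j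
      show List.Forall₂ _ (top (U (n0 + j))) (top (U (n0 + j + 1)))
      rw [k1, k3]
      exact List.rel_append (len_forall₂_pp k4) (len_forall₂_pp k5)
    · refine ⟨0, fun j _ τ hτ => ?_⟩
      obtain ⟨D1, E1, C1, k1, -⟩ := h7 j
      show τ ∈ top (U (n0 + j)) ∨ τ ∈ toks (rest (U (n0 + j)))
      change τ ∈ toks (U (n0 + j)) at hτ
      rw [k1] at hτ ⊢
      rw [rest_psh, top_psh]
      rw [toks_psh] at hτ
      change τ ∈ D1 ++ toks C1 ++ E1 at hτ
      change τ ∈ D1 ++ E1 ∨ τ ∈ toks C1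
      simp only [List.mem_append] at hτ ⊢
      tauto
    · intro j τ hτ
      obtain ⟨D1, E1, C1, k1, k2, -⟩ := h7 j
      change τ ∈ toks (rest (U (n0 + j))) at hτ
      rw [k1, rest_psh] at hτ
      exact srch_none k2 τ hτ

end Pool.Agent.W939.Ncr
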