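import Pool.Agent.W939.Ncr.RunR
import Pool.Agent.H84R6.Deg

set_option autoImplicit false

namespace Pool.Agent.W939.Ncr

open Encodable
open Nat.Partrec (Code)
open Pool.Agent.H84R6 (GG primrec_GG GG_mon ph pre o)

/-- consecutive runs -/
def NX (ℓ : ℕ) (U U' : ℕ → Conf) : Prop :=
  (∃ t P, Dec U U' t P) ∧
  (∀ e, ℓ = 2 * e → ∃ m b, (∀ τ ∈ toks (U' 0), τ[m]? = some b) ∧ ∀ s, ev s e m ≠ some b.toNat) ∧
  (∀ e, ℓ = 2 * e + 1 → ((∃ k, ∀ j, ∀ τ ∈ toks (U' j), GG (nn τ) e k = none) ∨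
        (∀ j, ∀ τ ∈ toks (U' j), ∀ i < j, (GG (nn τ) e i).isSome)))

theorem exists_next_run {ℓ : ℕ} {U : ℕ → Conf} (h : Run ℓ U) :
    ∃ U', Run (ℓ + 1) U' ∧ NX ℓ U U' := by
  obtain ⟨e, he⟩ | ⟨e, he⟩ : (∃ e, ℓ = 2 * e) ∨ ∃ e, ℓ = 2 * e + 1 := by
    rcases Nat.even_or_odd ℓ with h1 | h1
    · obtain ⟨e, he⟩ := h1; exact Or.inl ⟨e, by omega⟩
    · obtain ⟨e, he⟩ := h1; exact Or.inr ⟨e, by omega⟩
  · subst he
    obtain ⟨U', t, P, h1, h2, h3⟩ := dec_N h
    refine ⟨U', h1, ⟨t, P, h2⟩, ?_, ?_⟩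
    · intro e' he'
      obtain rfl : e = e' := by omega
      exact h3
    · intro e' he'
      omega
  · subst he
    obtain ⟨U', t, P, h1, h2, h3⟩ := dec_R h
    refine ⟨U', h1, ⟨t, P, h2⟩, ?_, ?_⟩
    · intro e' he'
      omega
    · intro e' he'
      obtain rfl : e = e' := by omega
      exact h3

/-- one stage -/
def stg (c : Conf) : Conf := setC (step c) ((toks (step c)).map (fun τ => τ ++ [false]))

/-- the global construction -/
def U0 (n : ℕ) : Conf := Nat.rec ([], (0, [])) (fun _ c => stg c) n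

theorem U0_succ (n : ℕ) : U0 (n + 1) = stg (U0 n) := rfl

theorem pr_stg : Primrec stg := by
  unfold stg
  refine pr_setC.comp pr_step ?_
  refine Primrec.list_map (pr_toks.comp pr_step) ?_
  exact Primrec.list_append.comp Primrec.snd (Primrec.const [false])

theorem pr_U0 : Primrec U0 := by
  have h := Primrec.nat_rec₁ (f := fun (_ : ℕ) (c : Conf) => stg c) ([], (0, []))
    (pr_stg.comp Primrec.snd)
  exact h

theorem stg_CR (c : Conf) : CR pp (step c) (stg c) := by
  refine (setC_CR (r := pp) ?_).1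
  rw [List.forall₂_map_right_iff]
  apply List.forall₂_same.2
  intro τ _
  exact ⟨List.prefix_append _ _, by simp⟩

theorem run_U0 : Run 0 U0 := ⟨⟨[], rfl⟩, fun n => stg_CR (U0 n), pr_U0.to_comp⟩

structure Tower (V : ℕ → ℕ → Conf) : Prop where
  zero : V 0 = U0
  run : ∀ ℓ, Run ℓ (V ℓ)
  nx : ∀ ℓ, NX ℓ (V ℓ) (V (ℓ + 1))

theorem exists_tower : ∃ V, Tower V := by
  classical
  let F : (ℓ : ℕ) → {U : ℕ → Conf // Run ℓ U} := fun ℓ => Nat.rec ⟨U0, run_U0⟩
    (fun ℓ p => ⟨(exists_next_run p.2).choose, (exists_next_run p.2).choose_spec.1⟩) ℓ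
  refine ⟨fun ℓ => (F ℓ).1, rfl, fun ℓ => (F ℓ).2, fun ℓ => ?_⟩
  exact (exists_next_run (F ℓ).2).choose_spec.2

/-- the root of a run -/
def root (V : ℕ → ℕ → Conf) (ℓ : ℕ) : Str := (V ℓ 0).2.2

variable {V : ℕ → ℕ → Conf}

theorem toks_zero (hV : Tower V) (ℓ : ℕ) : toks (V ℓ 0) = [root V ℓ] := by
  obtain ⟨σ, hσ⟩ := (hV.run ℓ).start
  unfold root
  rw [hσ]
  rfl

theorem sub_tower (hV : Tower V) (ℓ d : ℕ) : ∀ j, ∃ N, j + d ≤ N ∧
    toks (V (ℓ + d) j) ⊆ toks (V ℓ N) := by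
  induction d with
  | zero => exact fun j => ⟨j, le_rfl, List.Subset.refl _⟩
  | succ d ih =>
    intro j
    obtain ⟨⟨t, P, hD⟩, -⟩ := hV.nx (ℓ + d)
    obtain ⟨N, h1, h2⟩ := ih (t j)
    exact ⟨N, by have := hD.lt j; omega, List.Subset.trans (hD.sub j) h2⟩

theorem root_mem (hV : Tower V) (ℓ d : ℕ) : ∃ N, d ≤ N ∧ root V (ℓ + d) ∈ toks (V ℓ N) := by
  obtain ⟨N, h1, h2⟩ := sub_tower hV ℓ d 0
  refine ⟨N, by omega, h2 ?_⟩
  rw [toks_zero hV]
  simp

theorem root_len (hV : Tower V) (ℓ : ℕ) : ℓ ≤ (root V ℓ).length := by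
  obtain ⟨N, h1, h2⟩ := root_mem hV 0 ℓ
  rw [Nat.zero_add] at h2
  exact h1.trans ((hV.run 0).len N _ h2)

theorem root_ref (hV : Tower V) (ℓ n : ℕ) : ∀ τ ∈ toks (V ℓ n), root V ℓ <+: τ := by
  intro τ hτ
  obtain ⟨σ, h1, h2⟩ := ((hV.run ℓ).ref (Nat.zero_le n)) τ hτ
  rw [toks_zero hV, List.mem_singleton] at h1
  rw [← h1]
  exact h2

theorem root_mono (hV : Tower V) {ℓ ℓ' : ℕ} (h : ℓ ≤ ℓ') : root V ℓ <+: root V ℓ' := by
  obtain ⟨d, rfl⟩ := Nat.exists_eq_add_of_le h
  obtain ⟨N, -, h2⟩ := root_mem hV ℓ d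
  exact root_ref hV ℓ N _ h2

/-- the real -/
def XX (V : ℕ → ℕ → Conf) (n : ℕ) : Bool := ((root V (n + 1))[n]?).getD false

/-- initial segments -/
def On (X : ℕ → Bool) (τ : Str) : Prop := ∀ i b, τ[i]? = some b → b = X i

theorem getElem?_pre' {σ τ : Str} (h : σ <+: τ) {i : ℕ} {b : Bool} (hb : σ[i]? = some b) :
    τ[i]? = some b := by
  obtain ⟨ρ, rfl⟩ := h
  rw [List.getElem?_append_left]
  · exact hb
  · exact (List.getElem?_eq_some_iff.1 hb).1

theorem On.mono {X : ℕ → Bool} {σ τ : Str} (h : σ <+: τ) (hτ : On X τ) : On X σ :=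
  fun i b hb => hτ i b (getElem?_pre' h hb)

theorem On.eq {X : ℕ → Bool} {τ : Str} (h : On X τ) : τ = (List.range τ.length).map X := by
  apply List.ext_getElem
  · simp
  · intro i h1 h2
    rw [List.getElem_map, List.getElem_range]
    exact h i _ (List.getElem?_eq_getElem h1)

theorem On.nn_eq {X : ℕ → Bool} {τ : Str} (h : On X τ) : nn τ = pre (o X) τ.length := by
  have h1 := h.eq
  unfold nn pre
  conv_lhs => rw [h1]
  rw [List.map_map]
  rfl

theorem On_root (hV : Tower V) (ℓ : ℕ) : On (XX V) (root V ℓ) := by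
  intro i b hb
  have h1 : i < (root V (i + 1)).length := lt_of_lt_of_le (Nat.lt_succ_self i) (root_len hV (i + 1))
  have h2 : (root V (i + 1))[i]? = some (root V (i + 1))[i] := List.getElem?_eq_getElem h1
  have h3 : XX V i = (root V (i + 1))[i] := by
    unfold XX
    rw [h2]
    rfl
  rw [h3]
  rcases le_total ℓ (i + 1) with h | h
  · have := getElem?_pre' (root_mono hV h) hb
    rw [h2] at this
    exact (Option.some.inj this).symm
  · have := getElem?_pre' (root_mono hV h) h2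
    rw [hb] at this
    exact Option.some.inj this

theorem X_in (hV : Tower V) (ℓ n : ℕ) : ∃ τ ∈ toks (V ℓ n), On (XX V) τ := by
  obtain ⟨N, h1, h2⟩ := root_mem hV ℓ n
  obtain ⟨σ, h3, h4⟩ := ((hV.run ℓ).ref h1) _ h2
  exact ⟨σ, h3, On.mono h4 (On_root hV (ℓ + n))⟩

theorem exists_unif (m : ℕ) (P : ℕ → ℕ → Prop) (hP : ∀ j k k', k ≤ k' → P j k → P j k')
    (h : ∀ j < m, ∃ k, P j k) : ∃ K, ∀ j < m, P j K :=
  Pool.Agent.Helper760.OracleNF.exists_unif m P hP h

theorem forall₂_getElem? {T T' : List Str} (h : List.Forall₂ (· <+: ·) T T') {i : ℕ} {σ : Str}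
    (hσ : T[i]? = some σ) : ∃ τ, T'[i]? = some τ ∧ σ <+: τ := by
  induction h generalizing i with
  | nil => simp at hσ
  | @cons a b T T' h1 _ ih =>
    cases i with
    | zero =>
      simp only [List.getElem?_cons_zero, Option.some.injEq] at hσ
      exact ⟨b, by simp, hσ ▸ h1⟩
    | succ i =>
      rw [List.getElem?_cons_succ] at hσ
      obtain ⟨τ, h2, h3⟩ := ih hσ
      exact ⟨τ, by rw [List.getElem?_cons_succ]; exact h2, h3⟩

/-- the classes are countable: a member that is not computable is the one computed from the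
constructed real -/
theorem cls (hV : Tower V) {val : Str → ℕ → Option ℕ}
    (hm : ∀ σ τ n v, σ <+: τ → val σ n = some v → val τ n = some v) (hc : Computable₂ val)
    {ℓ0 : ℕ} (htot : ∀ j, ∀ τ ∈ toks (V ℓ0 j), ∀ i < j, (val τ i).isSome) {Z : ℕ → ℕ}
    (hZ : ∀ n, ∃ τ ∈ toks (V ℓ0 n), ∀ i < n, val τ i = some (Z i)) :
    Computable Z ∨ ∀ n, ∃ ℓ, val (root V ℓ) n = some (Z n) := by
  by_cases hcZ : Computable Z
  · exact Or.inl hcZ
  right
  have htot' : ∀ d j, ∀ τ ∈ toks (V (ℓ0 + d) j), ∀ i < j + d, (val τ i).isSome := by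
    intro d j τ hτ i hi
    obtain ⟨N, h1, h2⟩ := sub_tower hV ℓ0 d j
    exact htot N τ (h2 hτ) i (by omega)
  have key : ∀ d n, ∃ τ ∈ toks (V (ℓ0 + d) n), ∀ i < n, val τ i = some (Z i) := by
    intro d
    induction d with
    | zero => exact hZ
    | succ d ih =>
      by_contra hbad
      push Not at hbad
      obtain ⟨n, hn⟩ := hbad
      have hn' : ∀ j, n ≤ j → ∀ τ ∈ toks (V (ℓ0 + (d + 1)) j), ¬ ∀ i < j, val τ i = some (Z i) := by
        intro j hj τ hτ hc
        obtain ⟨σ, h1, h2⟩ := ((hV.run _).ref hj) τ hτ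
        obtain ⟨i, hi, h3⟩ := hn σ h1
        obtain ⟨v, hv⟩ := Option.isSome_iff_exists.1 (htot' (d + 1) n σ h1 i (by omega))
        have h4 := hm _ _ _ _ h2 hv
        rw [hc i (by omega)] at h4
        exact h3 (by rw [hv, h4])
      obtain ⟨⟨t, P, hD⟩, -⟩ := hV.nx (ℓ0 + d)
      obtain ⟨j0, hj0⟩ := hD.cov
      have hP : ∀ j, n ≤ j → j0 ≤ j → ∃ τ ∈ P j, ∀ i < j, val τ i = some (Z i) := by
        intro j h1 h2
        obtain ⟨τ, h3, h4⟩ := ih (t j)
        have h5 := hD.lt j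
        rcases hj0 j h2 τ h3 with h6 | h6
        · exact ⟨τ, h6, fun i hi => h4 i (by omega)⟩
        · exact absurd (fun i hi => h4 i (by omega)) (hn' j h1 τ h6)
      have hnest : ∀ j j', j ≤ j' → List.Forall₂ (· <+: ·) (P j) (P j') := by
        intro j j' h1
        induction j', h1 using Nat.le_induction with
        | base => exact List.forall₂_same.2 (fun _ _ => List.prefix_rfl)
        | succ k _ ih =>
          exact forall₂_comp (r := (· <+: ·)) (r' := (· <+: ·)) (r'' := (· <+: ·))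
            (fun _ _ _ h h' => h.trans h') ih (hD.nest k)
      -- one position is used infinitely often
      have hpos : ∃ i : ℕ, ∀ J : ℕ, ∃ j, J ≤ j ∧ ∃ τ : Str, (P j)[i]? = some τ ∧
          ∀ a < j, val τ a = some (Z a) := by
        by_contra hc
        push Not at hc
        obtain ⟨K, hK⟩ := exists_unif (P 0).length
          (fun i J => ∀ j, J ≤ j → ∀ τ : Str, (P j)[i]? = some τ → ∃ a < j, val τ a ≠ some (Z a))
          (fun i k k' hk h j hj => h j (hk.trans hj)) (fun i _ => hc i)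
        obtain ⟨τ, h1, h2⟩ := hP (max K (max n j0)) (by omega) (by omega)
        obtain ⟨i, h3, h4⟩ := List.mem_iff_getElem.1 h1
        have h5 : i < (P 0).length := by
          rw [(hnest 0 _ (Nat.zero_le _)).length_eq]; exact h3
        obtain ⟨a, h6, h7⟩ := hK i h5 _ (le_max_left _ _) τ
          (by rw [List.getElem?_eq_getElem h3, h4])
        exact h7 (h2 a h6)
      obtain ⟨i, hi⟩ := hpos
      apply hcZ
      let f : ℕ → ℕ → Option ℕ := fun a j => ((P j)[i]?).bind (fun τ => val τ a)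
      have hf : Computable₂ f := by
        have h1 : Computable (fun p : ℕ × ℕ => (P p.2)[i]?) :=
          Computable.list_getElem?.comp (hD.comp.comp Computable.snd) (Computable.const i)
        have h2 : Computable₂ (fun (p : ℕ × ℕ) (τ : Str) => val τ p.1) :=
          hc.comp Computable.snd (Computable.fst.comp Computable.fst)
        exact Computable.option_bind h1 h2
      have hfp : Partrec (fun a => Nat.rfindOpt (f a)) := Partrec.rfindOpt hf
      refine hfp.of_eq_tot (fun a => ?_)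
      have hsound : ∀ j v, f a j = some v → v = Z a := by
        intro j v hv
        obtain ⟨σ, h1, h2⟩ := Option.bind_eq_some_iff.1 hv
        obtain ⟨j', h3, τ, h4, h5⟩ := hi (max j (a + 1))
        obtain ⟨τ', h6, h7⟩ := forall₂_getElem? (hnest j j' (by omega)) h1
        rw [h4] at h6
        obtain rfl := Option.some.inj h6
        have h8 := hm _ _ _ _ h7 h2
        rw [h5 a (by omega)] at h8
        exact (Option.some.inj h8).symm
      have hd : (Nat.rfindOpt (f a)).Dom := by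
        rw [Nat.rfindOpt_dom]
        obtain ⟨j', h3, τ, h4, h5⟩ := hi (a + 1)
        exact ⟨j', Z a, by
          show ((P j')[i]?).bind (fun τ => val τ a) = some (Z a)
          rw [h4, Option.bind_some, h5 a (by omega)]⟩
      obtain ⟨v, hv⟩ := Part.dom_iff_mem.1 hd
      obtain ⟨j, hj⟩ := Nat.rfindOpt_spec hv
      rw [← hsound j v hj]
      exact hv
  intro n
  refine ⟨ℓ0 + (n + 1), ?_⟩
  obtain ⟨τ, h1, h2⟩ := key (n + 1) (n + 1)
  have h3 := root_ref hV _ _ τ h1
  have h4 : root V (ℓ0 + (n + 1)) ∈ toks (V (ℓ0 + (n + 1)) 0) := by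
    rw [toks_zero hV]; simp
  obtain ⟨v, hv⟩ := Option.isSome_iff_exists.1 (htot' (n + 1) 0 _ h4 n (by omega))
  have h5 := hm _ _ _ _ h3 hv
  rw [h2 n (by omega)] at h5
  rw [hv, h5]

end Pool.Agent.W939.Ncr
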