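import Pool.Agent.W939.Ncr.Meas
import Pool.Agent.W939.Ncr.Hyp

set_option autoImplicit false

/-!
# The test that captures every real computable from the constructed real
-/

namespace Pool.Agent.W939.Ncr

open Encodable MeasureTheory
open scoped ENNReal
open Nat.Partrec (Code)
open Pool.Agent.H84R6 (GG primrec_GG GG_mon ph pre o)

variable {V : ℕ → ℕ → Conf}

theorem countable_comp : {Z : ℕ → Bool | Computable Z}.Countable := by
  classical
  refine Set.Countable.mono ?_
    (Set.countable_range (fun (e : ℕ) (m : ℕ) => decide (∃ t, ev t e m = some 1)))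
  intro Z hZ
  obtain ⟨e, he⟩ := ev_of_comp hZ
  refine ⟨e, ?_⟩
  funext m
  obtain ⟨t, ht⟩ := he m
  show decide (∃ t, ev t e m = some 1) = Z m
  cases hz : Z m with
  | true => rw [hz] at ht; exact decide_eq_true ⟨t, ht⟩
  | false =>
    rw [hz] at ht
    apply decide_eq_false
    rintro ⟨t', ht'⟩
    have := ev_unique ht ht'
    exact absurd this (by simp)

/-- the values computed from a token -/
def out (c n : ℕ) (τ : Str) : Str := (List.range n).map (fun i => decide (GG (nn τ) c i = some 1))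

theorem length_out (c n : ℕ) (τ : Str) : (out c n τ).length = n := by simp [out]

theorem mem_cyl_out {c n : ℕ} {τ : Str} {Z : ℕ → Bool} :
    Z ∈ cyl (out c n τ) ↔ ∀ i < n, Z i = decide (GG (nn τ) c i = some 1) := by
  unfold cyl out
  constructor
  · intro h i hi
    have := h i (by simpa using hi)
    rw [this]
    simp
  · intro h i hi
    rw [h i (by simpa using hi)]
    simp

/-- the strings of stage `n` -/
def SS (V : ℕ → ℕ → Conf) (c n : ℕ) : List Str := (toks (V (2 * c + 2) n)).map (out c n)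

theorem pr_out (c : ℕ) : Primrec₂ (out c) := by
  unfold out
  refine Primrec.list_map (Primrec.list_range.comp Primrec.fst) ?_
  have h1 : Primrec (fun z : (ℕ × Str) × ℕ => (nn z.1.2, c, z.2)) :=
    Primrec.pair (pr_nn.comp (Primrec.snd.comp Primrec.fst)) (Primrec.pair (Primrec.const c)
      Primrec.snd)
  exact (Primrec.eq.comp (primrec_GG.comp h1 :) (Primrec.const (some 1))).decide

theorem comp_SS (hV : Tower V) (c : ℕ) : Computable (SS V c) := by
  have h1 : Primrec (fun z : ℕ × List Str => z.2.map (out c z.1)) :=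
    Primrec.list_map Primrec.snd ((pr_out c).comp (Primrec.fst.comp Primrec.fst) Primrec.snd)
  have h2 : Computable (fun n => (n, toks (V (2 * c + 2) n))) :=
    Computable.pair Computable.id (pr_toks.to_comp.comp (hV.run _).comp)
  exact (h1.to_comp.comp h2 :)

theorem length_SS {c n : ℕ} : ∀ q ∈ SS V c n, q.length = n := by
  intro q hq
  obtain ⟨τ, -, rfl⟩ := List.mem_map.1 hq
  exact length_out c n τ

theorem mem_opn_SS {c n : ℕ} {Z : ℕ → Bool} : Z ∈ opn (SS V c n) ↔
    ∃ τ ∈ toks (V (2 * c + 2) n), ∀ i < n, Z i = decide (GG (nn τ) c i = some 1) := by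
  unfold opn SS
  constructor
  · rintro ⟨q, hq, hZ⟩
    obtain ⟨τ, h1, rfl⟩ := List.mem_map.1 hq
    exact ⟨τ, h1, mem_cyl_out.1 hZ⟩
  · rintro ⟨τ, h1, h2⟩
    exact ⟨_, List.mem_map.2 ⟨τ, h1, rfl⟩, mem_cyl_out.2 h2⟩

section
variable (hV : Tower V) {c : ℕ} {Y : ℕ → Bool} (hY : ∀ n, ph c (o (XX V)) n (o Y n))
include hV hY

theorem opn_antitone : Antitone (fun n => opn (SS V c n)) := by
  apply antitone_nat_of_succ_le
  intro n Z hZ
  obtain ⟨τ', h1, h2⟩ := mem_opn_SS.1 hZ
  obtain ⟨τ, h3, h4⟩ := ((hV.run _).ref_succ n) τ' h1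
  refine mem_opn_SS.2 ⟨τ, h3, fun i hi => ?_⟩
  rw [h2 i (by omega)]
  obtain ⟨v, hv⟩ := Option.isSome_iff_exists.1
    (tot_of_total hV (c := c) (fun n => ⟨_, hY n⟩) n τ h3 i hi)
  rw [hv, GG_mon (nn_mono h4) hv]

theorem Y_mem (n : ℕ) : Y ∈ opn (SS V c n) := by
  obtain ⟨τ, h1, h2, h3⟩ := long_on hV (2 * c + 2) n
  refine mem_opn_SS.2 ⟨τ, h1, fun i hi => ?_⟩
  obtain ⟨v, hv⟩ := Option.isSome_iff_exists.1
    (tot_of_total hV (c := c) (fun n => ⟨_, hY n⟩) n τ h1 i hi)
  have h4 : v = o Y i := by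
    apply Pool.Agent.H84R6.ph_unique (c := c) (g := o (XX V)) (n := i) _ (hY i)
    exact ⟨_, h3 ▸ hv⟩
  rw [hv, h4]
  show Y i = decide (some (Y i).toNat = some 1)
  cases Y i <;> simp

theorem inter_countable : (⋂ n, opn (SS V c n)).Countable := by
  refine Set.Countable.mono ?_ (countable_comp.union (Set.countable_singleton Y))
  intro Z hZ
  rw [Set.mem_iInter] at hZ
  let val : Str → ℕ → Option ℕ := fun τ i => (GG (nn τ) c i).map (fun v => if v = 1 then 1 else 0)
  have k1 : ∀ (σ τ : Str) (n v : ℕ), σ <+: τ → val σ n = some v → val τ n = some v := by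
    intro σ τ n v h1 h2
    obtain ⟨w, h3, h4⟩ := Option.map_eq_some_iff.1 h2
    show (GG (nn τ) c n).map _ = some v
    rw [GG_mon (nn_mono h1) h3, ← h4]
    rfl
  have hval : Computable₂ val := by
    have h1 : Primrec (fun z : Str × ℕ => (nn z.1, c, z.2)) :=
      Primrec.pair (pr_nn.comp Primrec.fst) (Primrec.pair (Primrec.const c) Primrec.snd)
    have h2 : Primrec (fun z : Str × ℕ => GG (nn z.1) c z.2) := (primrec_GG.comp h1 :)
    have h3 : Primrec₂ val := by
      refine Primrec.option_map h2 ?_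
      exact Primrec.ite (Primrec.eq.comp Primrec.snd (Primrec.const 1)) (Primrec.const 1)
        (Primrec.const 0)
    exact h3.to_comp
  have htot := tot_of_total hV (c := c) (fun n => ⟨_, hY n⟩)
  have k2 : ∀ j, ∀ τ ∈ toks (V (2 * c + 2) j), ∀ i < j, (val τ i).isSome := by
    intro j τ hτ i hi
    obtain ⟨v, hv⟩ := Option.isSome_iff_exists.1 (htot j τ hτ i hi)
    show ((GG (nn τ) c i).map _).isSome = true
    rw [hv]
    rfl
  have k3 : ∀ n, ∃ τ ∈ toks (V (2 * c + 2) n), ∀ i < n, val τ i = some (Z i).toNat := by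
    intro n
    obtain ⟨τ, h1, h2⟩ := mem_opn_SS.1 (hZ n)
    refine ⟨τ, h1, fun i hi => ?_⟩
    obtain ⟨v, hv⟩ := Option.isSome_iff_exists.1 (htot n τ h1 i hi)
    show (GG (nn τ) c i).map _ = some (Z i).toNat
    rw [h2 i hi, hv]
    by_cases h : v = 1
    · simp [h]
    · simp [h]
  rcases cls hV k1 hval (ℓ0 := 2 * c + 2) k2 (Z := fun n => (Z n).toNat) k3 with h | h
  · exact Or.inl (comp_of_toNat h)
  · right
    rw [Set.mem_singleton_iff]
    funext n
    obtain ⟨ℓ, h1⟩ := h n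
    obtain ⟨v, h2, h3⟩ := Option.map_eq_some_iff.1 h1
    have h4 : v = o Y n := by
      apply Pool.Agent.H84R6.ph_unique (c := c) (g := o (XX V)) (n := n) _ (hY n)
      exact ⟨_, (On_root hV ℓ).nn_eq ▸ h2⟩
    rw [h4] at h3
    apply toNat_inj
    rw [← h3]
    show (if (Y n).toNat = 1 then 1 else 0) = (Y n).toNat
    cases Y n <;> simp

theorem exists_small {μ : Measure (ℕ → Bool)} [IsProbabilityMeasure μ] (hμ : ∀ Z, μ {Z} = 0)
    (k : ℕ) : ∃ n, μ (opn (SS V c n)) ≤ (2⁻¹ : ℝ≥0∞) ^ k := by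
  have h0 : μ (⋂ n, opn (SS V c n)) = 0 := by
    have : NullSingletonClass μ := ⟨hμ⟩
    exact (inter_countable hV hY).measure_zero μ
  have h1 : Filter.Tendsto (fun n => μ (opn (SS V c n))) Filter.atTop (nhds 0) := by
    rw [← h0]
    exact tendsto_measure_iInter_atTop (fun n => (meas_opn _).nullMeasurableSet)
      (opn_antitone hV hY) ⟨0, measure_ne_top μ _⟩
  have h2 : (0 : ℝ≥0∞) < 2⁻¹ ^ k := by
    apply ENNReal.pow_pos
    simp
  obtain ⟨n, hn⟩ := (h1.eventually (gt_mem_nhds h2)).exists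
  exact ⟨n, hn.le⟩

end

end Pool.Agent.W939.Ncr
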