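import Pool.Agent.W939.Ncr.Conf

set_option autoImplicit false

namespace Pool.Agent.W939.Ncr

open Encodable
open Nat.Partrec (Code)
open Pool.Agent.H84R6 (GG primrec_GG GG_mon)

theorem hd_cons (a : Str) (T : List Str) : hd (a :: T) = a := rfl

theorem hd_mem {T : List Str} (h : T ≠ []) : hd T ∈ T := by
  cases T with
  | nil => exact absurd rfl h
  | cons a T => simp [hd]

theorem hd_tail {T : List Str} (h : T ≠ []) : hd T :: T.tail = T := by
  cases T with
  | nil => exact absurd rfl h
  | cons a T => rfl

theorem toks_nil (p : ℕ × Str) : toks ([], p) = [p.2] := rfl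

theorem toks_psh (F : Frame) (c : Conf) : toks (psh F c) = Frame.dn F ++ toks c ++ Frame.td F := rfl

theorem toks_cons (F : Frame) (L : List Frame) (p : ℕ × Str) :
    toks (F :: L, p) = Frame.dn F ++ toks (L, p) ++ Frame.td F := rfl

theorem toks_ne (c : Conf) : toks c ≠ [] := by
  obtain ⟨L, p⟩ := c
  induction L with
  | nil => simp [toks_nil]
  | cons F L ih =>
    rw [toks_cons]
    intro h
    rw [List.append_eq_nil_iff, List.append_eq_nil_iff] at h
    exact ih h.1.2

/-! ### related configurations -/

/-- the same frame with related tokens -/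
def FR (r : Str → Str → Prop) (F F' : Frame) : Prop :=
  Frame.kd F' = Frame.kd F ∧ Frame.ix F' = Frame.ix F ∧ Frame.ar F' = Frame.ar F ∧
    Frame.cd F' = Frame.cd F ∧ List.Forall₂ r (Frame.dn F) (Frame.dn F') ∧
    List.Forall₂ r (Frame.td F) (Frame.td F')

/-- the same configuration with related tokens -/
def CR (r : Str → Str → Prop) (c c' : Conf) : Prop :=
  List.Forall₂ (FR r) c.1 c'.1 ∧ c'.2.1 = c.2.1 ∧ r c.2.2 c'.2.2

theorem CR_psh {r : Str → Str → Prop} {F : Frame} {c c' : Conf} (h : CR r (psh F c) c') :
    ∃ F' c'', c' = psh F' c'' ∧ FR r F F' ∧ CR r c c'' := by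
  obtain ⟨L', p'⟩ := c'
  obtain ⟨h1, h2, h3⟩ := h
  cases L' with
  | nil => exact absurd h1 (by simp [psh])
  | cons F' L' =>
    have h4 : FR r F F' ∧ List.Forall₂ (FR r) c.1 L' := by
      simpa [psh] using h1
    exact ⟨F', (L', p'), rfl, h4.1, h4.2, h2, h3⟩

theorem CR_nil {r : Str → Str → Prop} {p : ℕ × Str} {c' : Conf} (h : CR r ([], p) c') :
    ∃ σ, c' = ([], (p.1, σ)) ∧ r p.2 σ := by
  obtain ⟨L', p', σ'⟩ := c'
  obtain ⟨h1, h2, h3⟩ := h
  cases L' with
  | nil =>
    refine ⟨σ', ?_, h3⟩
    have h4 : p' = p.1 := h2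
    rw [h4]
  | cons F' L' => exact absurd h1 (by simp)

theorem forall₂_comp {α β γ : Type*} {r : α → β → Prop} {r' : β → γ → Prop} {r'' : α → γ → Prop}
    (hr : ∀ a b c, r a b → r' b c → r'' a c) {l : List α} {l' : List β} {l'' : List γ}
    (h : List.Forall₂ r l l') (h' : List.Forall₂ r' l' l'') : List.Forall₂ r'' l l'' := by
  induction h generalizing l'' with
  | nil => cases h'; exact List.Forall₂.nil
  | cons h1 _ ih =>
    cases h' with
    | cons h3 h4 => exact List.Forall₂.cons (hr _ _ _ h1 h3) (ih h4)

theorem FR_comp {r r' r'' : Str → Str → Prop} (hr : ∀ a b c, r a b → r' b c → r'' a c)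
    {F F' F'' : Frame} (h : FR r F F') (h' : FR r' F' F'') : FR r'' F F'' := by
  obtain ⟨h1, h2, h3, h4, h5, h6⟩ := h
  obtain ⟨k1, k2, k3, k4, k5, k6⟩ := h'
  exact ⟨k1.trans h1, k2.trans h2, k3.trans h3, k4.trans h4, forall₂_comp hr h5 k5,
    forall₂_comp hr h6 k6⟩

theorem CR_comp {r r' r'' : Str → Str → Prop} (hr : ∀ a b c, r a b → r' b c → r'' a c)
    {c c' c'' : Conf} (h : CR r c c') (h' : CR r' c' c'') : CR r'' c c'' := by
  obtain ⟨h1, h2, h3⟩ := h
  obtain ⟨k1, k2, k3⟩ := h'
  refine ⟨forall₂_comp (r := FR r) (r' := FR r') (r'' := FR r'')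
    (fun _ _ _ h h' => FR_comp hr h h') h1 k1, k2.trans h2, hr _ _ _ h3 k3⟩

theorem CR_toks {r : Str → Str → Prop} {c c' : Conf} (h : CR r c c') :
    List.Forall₂ r (toks c) (toks c') := by
  obtain ⟨L, p⟩ := c
  induction L generalizing c' with
  | nil =>
    obtain ⟨σ, rfl, h1⟩ := CR_nil h
    exact List.Forall₂.cons h1 List.Forall₂.nil
  | cons F L ih =>
    obtain ⟨F', c'', rfl, h1, h2⟩ := CR_psh (F := F) (c := (L, p)) h
    rw [toks_cons, toks_psh]
    exact List.rel_append (List.rel_append h1.2.2.2.2.1 (ih h2)) h1.2.2.2.2.2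

theorem length_mid {F : Frame} {T : List Str} {n : ℕ}
    (h : T.length = (Frame.dn F).length + n + (Frame.td F).length) : (mid F T).length = n := by
  unfold mid
  rw [List.length_drop, List.length_take]
  omega

/-- three parts of a list -/
theorem split3 {F : Frame} {T : List Str} {n : ℕ}
    (h : T.length = (Frame.dn F).length + n + (Frame.td F).length) :
    Frame.dn (setF F T) ++ mid F T ++ Frame.td (setF F T) = T := by
  show T.take (Frame.dn F).length ++ (T.take (T.length - (Frame.td F).length)).drop
    (Frame.dn F).length ++ T.drop (T.length - (Frame.td F).length) = T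
  have h1 : T.take (Frame.dn F).length =
      (T.take (T.length - (Frame.td F).length)).take (Frame.dn F).length := by
    rw [List.take_take]
    congr 1
    omega
  rw [h1, List.take_append_drop, List.take_append_drop]

theorem forall₂_split3 {r : Str → Str → Prop} {D M E T : List Str}
    (h : List.Forall₂ r (D ++ M ++ E) T) :
    List.Forall₂ r D (T.take D.length) ∧
    List.Forall₂ r M ((T.take (T.length - E.length)).drop D.length) ∧
    List.Forall₂ r E (T.drop (T.length - E.length)) := by
  have hlen : T.length = D.length + M.length + E.length := by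
    rw [← h.length_eq, List.length_append, List.length_append]
  have h1 : T.length - E.length = (D ++ M).length := by rw [List.length_append]; omega
  refine ⟨?_, ?_, ?_⟩
  · have h2 := List.forall₂_take D.length h
    rwa [List.append_assoc, List.take_left] at h2
  · have h2 := List.forall₂_drop D.length (List.forall₂_take (T.length - E.length) h)
    rwa [h1, List.take_left, List.drop_left, ← h1] at h2
  · have h2 := List.forall₂_drop (T.length - E.length) h
    rwa [h1, List.drop_left, ← h1] at h2

theorem setL_aux {r : Str → Str → Prop} (L : List Frame) (σ : Str) (T : List Str)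
    (h : List.Forall₂ r (toksL σ L) T) :
    List.Forall₂ (FR r) L (setL L T).1 ∧ (∃ τ, (setL L T).2 = [τ] ∧ r σ τ) ∧
      toksL (hd (setL L T).2) (setL L T).1 = T := by
  induction L generalizing T with
  | nil =>
    cases h with
    | cons h1 h2 =>
      cases h2
      exact ⟨List.Forall₂.nil, ⟨_, rfl, h1⟩, rfl⟩
  | cons F L ih =>
    have hlen : T.length = (Frame.dn F).length + (toksL σ L).length + (Frame.td F).length := by
      rw [← h.length_eq, toksL, List.length_append, List.length_append]
    have h3 := split3 hlen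
    obtain ⟨h4, h5, h6⟩ := forall₂_split3 h
    obtain ⟨h7, h8, h9⟩ := ih (mid F T) h5
    refine ⟨List.Forall₂.cons ⟨rfl, rfl, rfl, rfl, h4, h6⟩ h7, h8, ?_⟩
    show Frame.dn (setF F T) ++ toksL (hd (setL L (mid F T)).2) (setL L (mid F T)).1 ++
      Frame.td (setF F T) = T
    rw [h9, h3]

theorem setC_CR {r : Str → Str → Prop} {c : Conf} {T : List Str}
    (h : List.Forall₂ r (toks c) T) : CR r c (setC c T) ∧ toks (setC c T) = T := by
  obtain ⟨L, p⟩ := c
  obtain ⟨h1, ⟨τ, h2, h3⟩, h4⟩ := setL_aux L p.2 T h
  have h5 : setC (L, p) T = ((setL L T).1, (p.1, hd (setL L T).2)) := by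
    unfold setC
    rw [if_pos h.length_eq.symm]
  rw [h5]
  refine ⟨⟨h1, rfl, ?_⟩, h4⟩
  show r p.2 (hd (setL L T).2)
  rw [h2]
  exact h3

theorem length_setL (L : List Frame) (σ : Str) (T : List Str)
    (h : T.length = (toksL σ L).length) : toksL (hd (setL L T).2) (setL L T).1 = T := by
  refine (setL_aux (r := fun _ _ => True) L σ T ?_).2.2
  rw [List.forall₂_iff_get]
  exact ⟨h.symm, fun _ _ _ => trivial⟩

theorem toks_setC (c : Conf) {T : List Str} :
    toks (setC c T) = T ∨ toks (setC c T) = [hd T] := by
  unfold setC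
  split_ifs with h
  · left
    exact length_setL c.1 c.2.2 T h
  · right
    rfl

/-! ### one step -/

theorem srch_some {T : List Str} {e k : ℕ} {b : Str} (h : srch T e k = some b) :
    b ∈ T ∧ (GG (nn b) e k).isSome := by
  have h1 := List.mem_of_head? h
  rw [List.mem_filter] at h1
  exact ⟨h1.1, by simpa using h1.2⟩

theorem srch_none {T : List Str} {e k : ℕ} (h : srch T e k = none) :
    ∀ b ∈ T, GG (nn b) e k = none := by
  intro b hb
  unfold srch at h
  rw [List.head?_eq_none_iff, List.filter_eq_nil_iff] at h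
  have := h b hb
  simpa using this

theorem side_mem (F : Frame) (C : Conf) : side F C ∈ Frame.dn F ++ toks C := by
  apply hd_mem
  intro h
  rw [List.append_eq_nil_iff] at h
  exact toks_ne C h.2

/-- every token extends a token -/
def Ref (T T' : List Str) : Prop := ∀ τ ∈ T', ∃ σ ∈ T, σ <+: τ

theorem Ref.trans {T T' T'' : List Str} (h : Ref T T') (h' : Ref T' T'') : Ref T T'' := by
  intro τ hτ
  obtain ⟨σ, h1, h2⟩ := h' τ hτ
  obtain ⟨ρ, h3, h4⟩ := h σ h1
  exact ⟨ρ, h3, h4.trans h2⟩

theorem Ref.of_subset {T T' : List Str} (h : T' ⊆ T) : Ref T T' :=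
  fun τ hτ => ⟨τ, h hτ, List.prefix_rfl⟩

theorem Ref.of_forall₂ {T T' : List Str} (h : List.Forall₂ (· <+: ·) T T') : Ref T T' := by
  induction h with
  | nil => intro τ hτ; exact absurd hτ (by simp)
  | @cons a b T T' h1 _ ih =>
    intro τ hτ
    rcases List.mem_cons.1 hτ with rfl | hτ
    · exact ⟨a, by simp, h1⟩
    · obtain ⟨σ, h2, h3⟩ := ih τ hτ
      exact ⟨σ, List.mem_cons_of_mem _ h2, h3⟩

theorem ref_mid {D M M' E : List Str} (h : Ref M M') : Ref (D ++ M ++ E) (D ++ M' ++ E) := by
  intro τ hτ
  rw [List.mem_append, List.mem_append] at hτ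
  rcases hτ with (h1 | h1) | h1
  · exact ⟨τ, by simp [h1], List.prefix_rfl⟩
  · obtain ⟨σ, h2, h3⟩ := h τ h1
    exact ⟨σ, by simp [h2], h3⟩
  · exact ⟨τ, by simp [h1], List.prefix_rfl⟩

theorem ref_stepFr (F : Frame) (C R : Conf) (h : Ref (toks C) (toks R)) :
    Ref (toks (psh F C)) (toks (stepFr F C R)) := by
  rw [toks_psh]
  have hR : Ref (Frame.dn F ++ toks C ++ Frame.td F) (toks R) := by
    intro τ hτ
    obtain ⟨σ, h2, h3⟩ := h τ hτ
    exact ⟨σ, by simp [h2], h3⟩
  have hp : Ref (Frame.dn F ++ toks C ++ Frame.td F) (toks (psh F R)) := by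
    rw [toks_psh]; exact ref_mid h
  unfold stepFr
  split_ifs with h1 h2
  · unfold stN
    cases ev (side F C).length (Frame.ix F) (Frame.ar F) with
    | none => exact hp
    | some v =>
      show Ref _ (toks (if v = 0 then _ else R))
      split_ifs with h2
      · rw [toks_nil]
        intro τ hτ
        rw [List.mem_singleton] at hτ
        subst hτ
        exact ⟨side F C, List.mem_append_left _ (side_mem F C), List.prefix_rfl⟩
      · exact hR
  · have : toks (stE F R) = toks R := by
      unfold stE
      rw [toks_cons, toks_nil]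
      show [] ++ [hd (toks R)] ++ (toks R).tail = _
      rw [List.nil_append, List.singleton_append, hd_tail (toks_ne R)]
    rw [this]
    exact hR
  · unfold stW
    cases h3 : srch (toks C) (Frame.ix F) (Frame.ar F) with
    | none => exact hp
    | some b =>
      have h4 := (srch_some h3).1
      show Ref _ (toks (stD F b))
      unfold stD
      cases h5 : Frame.td F with
      | nil =>
        show Ref _ (toks (psh _ (setC _ _)))
        have h7 : ∀ c : Conf, toks (psh (1, Frame.ix F, Frame.ar F + 1, 0, [], []) c) = toks c := by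
          intro c
          rw [toks_psh]
          show [] ++ toks c ++ [] = toks c
          rw [List.nil_append, List.append_nil]
        rw [h7, List.append_nil]
        have h6 : Ref (Frame.dn F ++ toks C) (Frame.dn F ++ [b]) := by
          apply Ref.of_subset
          intro τ hτ
          rw [List.mem_append, List.mem_singleton] at hτ
          rcases hτ with hτ | rfl
          · simp [hτ]
          · simp [h4]
        rcases toks_setC (dec (Frame.cd F)) (T := Frame.dn F ++ [b]) with h7 | h7
        · rw [h7]; exact h6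
        · rw [h7]
          refine h6.trans (Ref.of_subset ?_)
          intro τ hτ
          rw [List.mem_singleton] at hτ
          rw [hτ]
          exact hd_mem (by simp)
      | cons t td =>
        apply Ref.of_subset
        show (Frame.dn F ++ [b] ++ [t] ++ td) ⊆ _
        intro τ hτ
        simp only [List.mem_append, List.mem_cons, List.not_mem_nil, or_false] at hτ ⊢
        rcases hτ with ((h6 | h6) | h6) | h6
        · exact Or.inl (Or.inl h6)
        · subst h6; exact Or.inl (Or.inr h4)
        · exact Or.inr (Or.inl h6)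
        · exact Or.inr (Or.inr h6)

theorem step_psh (F : Frame) (C : Conf) : step (psh F C) = stepFr F C (step C) := rfl

theorem ref_step (c : Conf) : Ref (toks c) (toks (step c)) := by
  obtain ⟨L, p⟩ := c
  induction L with
  | nil =>
    show Ref (toks ([], p)) (toks (stepLeaf p))
    unfold stepLeaf
    split_ifs with h
    · intro τ hτ
      have h0 : τ ∈ [p.2 ++ [true]] ++ [p.2 ++ [false]] ++ [] := hτ
      refine ⟨p.2, by simp [toks_nil], ?_⟩
      simp only [List.mem_append, List.mem_cons, List.not_mem_nil, or_false] at h0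
      rcases h0 with h1 | h1
      · rw [h1]; exact List.prefix_append _ _
      · rw [h1]; exact List.prefix_append _ _
    · intro τ hτ
      have h0 : τ ∈ [] ++ [p.2] ++ [] := hτ
      refine ⟨p.2, by simp [toks_nil], ?_⟩
      simp only [List.mem_append, List.mem_cons, List.not_mem_nil, or_false, false_or] at h0
      rw [h0]
  | cons F L ih => exact ref_stepFr F (L, p) (step (L, p)) ih

end Pool.Agent.W939.Ncr
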